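import Mathlib

/-!
# Truth-trees with parity: definitions

Formulae, nodes, branches, traces, the decomposition rules, closed trees, and the set of
acceptable formulae, exactly as in the problem file.
-/

namespace Pool.Agent.Work.MP_e8d052_lc

/-- Formulae built from countably many sentence letters with negation, conjunction, disjunction
and the arrow. -/
inductive Fml : Type
  | var : ℕ → Fml
  | neg : Fml → Fml
  | and : Fml → Fml → Fml
  | or : Fml → Fml → Fml
  | imp : Fml → Fml → Fml

/-- A Goedel numbering of formulae. -/
def Fml.code : Fml → ℕ
  | .var n => Nat.pair 0 n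
  | .neg a => Nat.pair 1 a.code
  | .and a b => Nat.pair 2 (Nat.pair a.code b.code)
  | .or a b => Nat.pair 3 (Nat.pair a.code b.code)
  | .imp a b => Nat.pair 4 (Nat.pair a.code b.code)

/-- The numbering is injective. -/
theorem Fml.code_injective : Function.Injective Fml.code := by
  intro a
  induction a with
  | var n => intro b h; cases b <;> simp_all [Fml.code, Nat.pair_eq_pair]
  | neg a ih =>
    intro b h
    cases b <;> simp only [Fml.code, Nat.pair_eq_pair] at h <;> try omega
    rw [ih h.2]
  | and a b iha ihb =>
    intro c h
    cases c <;> simp only [Fml.code, Nat.pair_eq_pair] at h <;> try omega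
    rw [iha h.2.1, ihb h.2.2]
  | or a b iha ihb =>
    intro c h
    cases c <;> simp only [Fml.code, Nat.pair_eq_pair] at h <;> try omega
    rw [iha h.2.1, ihb h.2.2]
  | imp a b iha ihb =>
    intro c h
    cases c <;> simp only [Fml.code, Nat.pair_eq_pair] at h <;> try omega
    rw [iha h.2.1, ihb h.2.2]

/-- A node of a truth-tree.  A branch is the list of its nodes, starting from the root, and nodes
are referred to by their position on the branch.  `inputs` records the positions of the earlier
nodes from which the node was obtained, and `partner` is `some d` when the node is critical and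
its partner is at position `d`, and `none` when the node is not critical. -/
structure Node where
  fml : Fml
  inputs : List ℕ
  partner : Option ℕ

/-- Position `i` of the branch `B` carries the formula `α`. -/
def At (B : List Node) (i : ℕ) (α : Fml) : Prop := ∃ N, B[i]? = some N ∧ N.fml = α

/-- `InTrace B n m`: on the branch `B`, node `m` belongs to the trace of node `n`, that is, to the
least set containing `n` and, along with any node, the nodes it was obtained from. -/
inductive InTrace (B : List Node) (n : ℕ) : ℕ → Prop
  | self : InTrace B n n
  | input {m k : ℕ} {N : Node} :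
      InTrace B n m → B[m]? = some N → k ∈ N.inputs → InTrace B n k

/-- The branch `B` crashes with parity: there are nodes `i : ζ` and `j : ¬ζ` on `B` such that a
critical node lies in the union of their traces if and only if its partner does. -/
def CrashesWithParity (B : List Node) : Prop :=
  ∃ i j ζ, At B i ζ ∧ At B j (Fml.neg ζ) ∧
    ∀ c d N, B[c]? = some N → N.partner = some d →
      ((InTrace B i c ∨ InTrace B j c) ↔ (InTrace B i d ∨ InTrace B j d))

/-- `Rule S B alts`: the branch `B` may be extended by one application of a rule, which forks it
into the continuations `B ++ L`, one for each list `L` of new nodes in `alts`.  The last rule is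
the recursive rule relative to the set `S`. -/
inductive Rule (S : Fml → Prop) (B : List Node) : List (List Node) → Prop
  | dneg {i : ℕ} {α : Fml} : At B i (.neg (.neg α)) → Rule S B [[⟨α, [i], none⟩]]
  | conj {i : ℕ} {α β : Fml} : At B i (.and α β) →
      Rule S B [[⟨α, [i], none⟩, ⟨β, [i], none⟩]]
  | negDisj {i : ℕ} {α β : Fml} : At B i (.neg (.or α β)) →
      Rule S B [[⟨.neg α, [i], none⟩, ⟨.neg β, [i], none⟩]]
  | disj {i : ℕ} {α β : Fml} : At B i (.or α β) →
      Rule S B [[⟨α, [i], none⟩], [⟨β, [i], none⟩]]
  | negConj {i : ℕ} {α β : Fml} : At B i (.neg (.and α β)) →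
      Rule S B [[⟨.neg α, [i], none⟩], [⟨.neg β, [i], none⟩]]
  | counterCase {i : ℕ} {α β : Fml} : At B i (.neg (.imp α β)) →
      Rule S B [[⟨α, [i], some (B.length + 1)⟩, ⟨.neg β, [i], some B.length⟩]]
  | modusPonens {i j : ℕ} {α β : Fml} : At B i α → At B j (.imp α β) →
      Rule S B [[⟨β, [i, j], none⟩]]
  | recursive {i : ℕ} {α β : Fml} : At B i α → S (.imp α β) →
      Rule S B [[⟨β, [i], none⟩]]

/-- `Closes S B`: the branch `B` can be developed, by finitely many applications of the rules
(with the recursive rule relative to `S`), into a finite tree all of whose branches crash with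
parity. -/
inductive Closes (S : Fml → Prop) : List Node → Prop
  | crash {B : List Node} : CrashesWithParity B → Closes S B
  | step {B : List Node} {alts : List (List Node)} :
      Rule S B alts → (∀ L ∈ alts, Closes S (B ++ L)) → Closes S B

/-- Some truth-tree for `φ` (root labelled `¬φ`), with the recursive rule relative to `S`, has
every branch crashing with parity. -/
def TreeFor (S : Fml → Prop) (φ : Fml) : Prop := Closes S [⟨.neg φ, [], none⟩]

/-- The set of acceptable formulae: the least set `S` such that `φ ∈ S` whenever some truth-tree
for `φ`, built with the recursive rule relative to `S`, has every branch crashing with parity. -/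
def Acceptable (φ : Fml) : Prop :=
  ∀ S : Fml → Prop, (∀ ψ, TreeFor S ψ → S ψ) → S φ

end Pool.Agent.Work.MP_e8d052_lc
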