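import Pool.Agent.Work.MP_e8d052_lc.Defs

/-!
# Two-stack systems and the formula attached to them
-/

set_option linter.unusedVariables false

namespace Pool.Agent.Work.MP_e8d052_lc

/-- A rule of a two-stack system: in state `q`, push (`true`) or pop (`false`) the symbol `g` on
the first stack and the symbol `d` on the second one, and go to state `q'`. -/
structure SRule where
  q : ℕ
  p1 : Bool
  g : ℕ
  p2 : Bool
  d : ℕ
  q' : ℕ

/-- One push or pop. -/
def Mv (p : Bool) (g : ℕ) (u u' : List ℕ) : Prop :=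
  (p = true ∧ u' = g :: u) ∨ (p = false ∧ u = g :: u')

/-- Configurations reachable from state `q0` with two empty stacks. -/
inductive Reach (R : List SRule) (q0 : ℕ) : ℕ → List ℕ → List ℕ → Prop
  | start : Reach R q0 q0 [] []
  | step {q : ℕ} {u v u' v' : List ℕ} {r : SRule} : Reach R q0 q u v → r ∈ R → r.q = q →
      Mv r.p1 r.g u u' → Mv r.p2 r.d v v' → Reach R q0 r.q' u' v'

/-- The sentence letters used. -/
inductive Atm
  | A (s : Bool) (c : ℕ)
  | D (s : Bool)
  | G (s : Bool) (c g : ℕ)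
  | E (s : Bool)
  | T (q c d : ℕ)
  | N (q c d : ℕ)

def Atm.code : Atm → ℕ
  | .A s c => Nat.pair 0 (Nat.pair s.toNat c)
  | .D s => Nat.pair 1 s.toNat
  | .G s c g => Nat.pair 2 (Nat.pair s.toNat (Nat.pair c g))
  | .E s => Nat.pair 3 s.toNat
  | .T q c d => Nat.pair 4 (Nat.pair q (Nat.pair c d))
  | .N q c d => Nat.pair 5 (Nat.pair q (Nat.pair c d))

theorem toNat_inj' {a b : Bool} : a.toNat = b.toNat ↔ a = b := by
  cases a <;> cases b <;> simp

theorem Atm.code_inj : Function.Injective Atm.code := by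
  intro a b h
  cases a <;> cases b <;> simp_all [Atm.code, Nat.pair_eq_pair, toNat_inj']

/-- The letter as a formula. -/
def v (a : Atm) : Fml := .var a.code

/-- Fusion. -/
def fus (a b : Fml) : Fml := .neg (.imp a (.neg b))

/-- The class of a depth. -/
def cls (d : ℕ) : ℕ := if d = 0 then 3 else d % 3

def nxt (c : ℕ) : ℕ := if c = 3 then 1 else (c + 1) % 3

theorem cls_succ (d : ℕ) : cls (d + 1) = nxt (cls d) := by
  by_cases h : d = 0
  · subst h; simp [cls, nxt]
  · have h3 : d % 3 ≠ 3 := by omega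
    simp only [cls, nxt, h, h3, if_false]
    rw [if_neg (by omega)]
    omega

theorem cls_lt (d : ℕ) : cls d < 4 := by
  unfold cls
  split_ifs <;> omega

theorem nxt_ne (d : ℕ) : nxt (cls d) ≠ cls d := by
  by_cases h : d = 0
  · subst h; simp [cls, nxt]
  · have h3 : d % 3 ≠ 3 := by omega
    simp only [cls, nxt, h, h3, if_false]
    omega

theorem cls_eq_three {d : ℕ} : cls d = 3 ↔ d = 0 := by
  unfold cls
  split_ifs <;> omega

def pStart (q0 : ℕ) : Fml :=
  .imp (v (.A false 3)) (.imp (v (.A true 3)) (v (.T q0 3 3)))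

def pPos (q c d : ℕ) : Fml :=
  .imp (v (.A false c)) (.imp (v (.A true d)) (.or (v (.T q c d)) (v (.N q c d))))

def pHalt (c d : ℕ) : Fml :=
  .imp (v (.A false c)) (.imp (v (.A true d)) (v (.N 0 c d)))

def lo (p : Bool) (c : ℕ) : ℕ := if p then c else nxt c

def hi (p : Bool) (c : ℕ) : ℕ := if p then nxt c else c

def pRule (r : SRule) (c d : ℕ) : Fml :=
  .imp (v (.G false c r.g)) (.imp (v (.G true d r.d))
    (.imp (v (.T r.q (lo r.p1 c) (lo r.p2 d))) (.neg (v (.N r.q' (hi r.p1 c) (hi r.p2 d))))))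

def pGen0 (s : Bool) (d : ℕ) : Fml :=
  .imp (v (.D s)) (fus (v (.A s 1)) (v (.G s 3 d)))

def pGen (s : Bool) (c g d : ℕ) : Fml :=
  .imp (v (.A s c)) (.imp (v (.G s c g))
    (.or (fus (v (.A s (nxt (nxt c)))) (v (.G s (nxt c) d))) (v (.E s))))

def pEsc (s : Bool) (c : ℕ) : Fml :=
  .imp (v (.A s c)) (.neg (v (.E s)))

/-- Being a conjunct of a formula. -/
inductive Conj : Fml → Fml → Prop
  | self {a : Fml} : Conj a a
  | left {a b c : Fml} : Conj a b → Conj a (.and b c)
  | right {a b c : Fml} : Conj a c → Conj a (.and b c)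

/-- The kinds of conjuncts allowed: everything the model must validate. -/
inductive Piece (R : List SRule) (q0 : ℕ) : Fml → Prop
  | start : Piece R q0 (pStart q0)
  | pos (q c d : ℕ) : Piece R q0 (pPos q c d)
  | halt (c d : ℕ) : Piece R q0 (pHalt c d)
  | rule (r : SRule) (c d : ℕ) : r ∈ R → Piece R q0 (pRule r c d)
  | gen0 (s : Bool) (d : ℕ) : Piece R q0 (pGen0 s d)
  | gen (s : Bool) (c g d : ℕ) : Piece R q0 (pGen s c g d)
  | esc (s : Bool) (c : ℕ) : Piece R q0 (pEsc s c)
  | and (a b : Fml) : Piece R q0 a → Piece R q0 b → Piece R q0 (.and a b)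

/-- The consequent of the reduction formula. -/
def chi : Fml :=
  .or (.imp (v (.A false 3)) (.neg (v (.D false)))) (.imp (v (.A true 3)) (.neg (v (.D true))))

end Pool.Agent.Work.MP_e8d052_lc
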