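import Mathlib

/-!
# A fixed Turing machine with an undecidable halting problem on a periodic family of inputs
-/

set_option linter.unusedVariables false

namespace Pool.Agent.Work.MP_e8d052_lc

open Turing Turing.ToPartrec Nat.Partrec

/-- Body of the loop that counts the ones. -/
def body : ToPartrec.Code :=
  .comp (.case .zero' (.cons (.comp .succ .zero')
    (.cons (.comp .succ .tail) (.comp .tail (.comp .tail .tail)))))
    (.cons .tail ToPartrec.Code.id)

theorem body_zero (k : ℕ) : body.eval [k] = pure [0, k] := by
  simp [body]

theorem body_succ (k j : ℕ) :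
    body.eval (k :: 1 :: List.replicate j 1) = pure (1 :: (k + 1) :: List.replicate j 1) := by
  simp [body]

theorem fix_body (j : ℕ) : ∀ k : ℕ,
    (ToPartrec.Code.fix body).eval (k :: List.replicate j 1) = pure [k + j] := by
  induction j with
  | zero =>
    intro k
    refine Part.eq_some_iff.2 ?_
    rw [Code.fix_eval]
    apply PFun.fix_stop
    simp [body_zero]
  | succ j ih =>
    intro k
    have h := ih (k + 1)
    rw [Code.fix_eval] at h ⊢
    have hm : Sum.inr ((k + 1) :: List.replicate j 1) ∈
        (fun v => (body.eval v).map fun v =>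
          if v.headI = 0 then Sum.inl v.tail else Sum.inr v.tail :
          List ℕ →. List ℕ ⊕ List ℕ) (k :: List.replicate (j + 1) 1) := by
      rw [List.replicate_succ]
      show _ ∈ Part.map _ (body.eval (k :: 1 :: List.replicate j 1))
      rw [body_succ]
      simp
    refine (PFun.fix_fwd_eq hm).trans ?_
    have e : k + (j + 1) = k + 1 + j := by omega
    rw [e]
    exact h

/-- There is a code whose halting problem on the inputs `[1, ..., 1]` is undecidable. -/
theorem exists_code_unary : ∃ c : ToPartrec.Code,
    ¬ ComputablePred fun n : ℕ => (c.eval (List.replicate (n + 1) 1)).Dom := by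
  let f : ℕ →. ℕ := fun m => Code.eval (Denumerable.ofNat Nat.Partrec.Code (m - 1)) 0
  have hf : Partrec f := by
    refine Nat.Partrec.Code.eval_part.comp ?_ (Computable.const 0)
    exact (Computable.ofNat _).comp (Primrec.pred.to_comp)
  obtain ⟨c, hc⟩ := ToPartrec.Code.exists_code (n := 1) (Nat.Partrec'.part_iff₁.2 hf)
  refine ⟨.comp c (.comp (.fix body) .zero'), ?_⟩
  intro hcon
  apply ComputablePred.halting_problem 0
  have key : ∀ n : ℕ, ((ToPartrec.Code.comp c (.comp (.fix body) .zero')).eval
      (List.replicate (n + 1) 1)).Dom ↔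
      (Code.eval (Denumerable.ofNat Nat.Partrec.Code n) 0).Dom := by
    intro n
    have h1 : (ToPartrec.Code.comp c (.comp (.fix body) .zero')).eval
      (List.replicate (n + 1) 1) = c.eval [n + 1] := by
      have h2 : (ToPartrec.Code.fix body).eval (0 :: List.replicate (n + 1) 1) =
          Part.some [n + 1] := by
        have := fix_body (n + 1) 0
        rw [Nat.zero_add] at this
        exact this
      rw [ToPartrec.Code.comp_eval, ToPartrec.Code.comp_eval, ToPartrec.Code.zero'_eval]
      show ((Part.some (0 :: List.replicate (n + 1) 1)).bind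
        (fun v => (ToPartrec.Code.fix body).eval v)).bind (fun v => c.eval v) = _
      rw [Part.bind_some, h2]
      exact Part.bind_some _ _
    rw [h1]
    have h3 := hc ⟨[n + 1], rfl⟩
    have h4 : c.eval [n + 1] = pure <$> f (n + 1) := h3
    rw [h4]
    show (f (n + 1)).Dom ↔ _
    simp [f]
  have h5 : ComputablePred fun n : ℕ => (Code.eval (Denumerable.ofNat Nat.Partrec.Code n) 0).Dom :=
    hcon.of_eq key
  obtain ⟨g, hg, he⟩ := ComputablePred.computable_iff.1 h5
  refine ComputablePred.computable_iff.2 ⟨fun c => g (Encodable.encode c),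
    hg.comp Computable.encode, ?_⟩
  funext c
  have := congrFun he (Encodable.encode c)
  simpa using this

/-- The fixed stack machine. -/
instance : Fintype PartrecToTM2.K' :=
  ⟨{.main, .rev, .aux, .stack}, by intro x; cases x <;> simp⟩

theorem trList_replicate (n : ℕ) : PartrecToTM2.trList (List.replicate n 1) =
    (List.replicate n [PartrecToTM2.Γ'.bit1, PartrecToTM2.Γ'.cons]).flatten := by
  induction n with
  | zero => rfl
  | succ n ih =>
    rw [List.replicate_succ, PartrecToTM2.trList, ih, List.replicate_succ, List.flatten_cons]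
    rfl

theorem reverse_flatten_replicate {α : Type*} (a b : α) (n : ℕ) :
    ((List.replicate n [a, b]).flatten).reverse = (List.replicate n [b, a]).flatten := by
  rw [List.reverse_flatten, List.map_replicate, List.reverse_replicate]
  rfl

theorem map_flatten_replicate {α β : Type*} (f : α → β) (a b : α) (n : ℕ) :
    ((List.replicate n [a, b]).flatten).map f = (List.replicate n [f a, f b]).flatten := by
  induction n with
  | zero => rfl
  | succ n ih =>
    rw [List.replicate_succ, List.replicate_succ, List.flatten_cons, List.flatten_cons,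
      List.map_append, ih]
    rfl

/-- The cell carrying one symbol of the input stack. -/
def cell {K : Type} [DecidableEq K] {G : K → Type} (t : Bool) (k : K) (a : G k) :
    TM2to1.Γ' K G :=
  (t, Function.update (fun _ => none) k (some a))

theorem trInit_eq {K : Type} [DecidableEq K] {G : K → Type} (k : K) (a b : G k) (n : ℕ) :
    TM2to1.trInit k ((List.replicate (n + 1) [b, a]).flatten) =
      cell true k a :: cell false k b ::
        (List.replicate n [cell false k a, cell false k b]).flatten := by
  have h : ((List.replicate (n + 1) [b, a]).flatten).reverse =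
      a :: b :: (List.replicate n [a, b]).flatten := by
    rw [reverse_flatten_replicate, List.replicate_succ, List.flatten_cons]
    rfl
  unfold TM2to1.trInit
  rw [h]
  have h2 := map_flatten_replicate (fun a => (cell false k a : TM2to1.Γ' K G)) a b n
  rw [← h2]
  rfl

/-- A fixed Turing machine with finitely many states whose halting problem is undecidable on the
inputs `x y (z y)^n`. -/
theorem exists_TM0 : ∃ (Γ Λ : Type) (_ : Inhabited Γ) (_ : Fintype Γ) (_ : Inhabited Λ)
    (M : TM0.Machine Γ Λ) (S : Finset Λ) (x y w : Γ), TM0.Supports M (↑S : Set Λ) ∧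
      ¬ ComputablePred fun n : ℕ => (StateTransition.eval (TM0.step M)
        (TM0.init (x :: y :: (List.replicate n [w, y]).flatten))).Dom := by
  classical
  obtain ⟨c, hc⟩ := exists_code_unary
  let k0 : PartrecToTM2.Cont' := .halt
  letI i0 : Inhabited PartrecToTM2.Λ' := ⟨PartrecToTM2.trNormal c k0⟩
  let G : PartrecToTM2.K' → Type := fun _ => PartrecToTM2.Γ'
  let M2 : PartrecToTM2.Λ' → TM2.Stmt G PartrecToTM2.Λ' (Option PartrecToTM2.Γ') := PartrecToTM2.tr
  let M1 := TM2to1.tr M2
  let M0 := TM1to0.tr M1
  have hs2 : TM2.Supports M2 (PartrecToTM2.codeSupp c k0) := PartrecToTM2.tr_supports c k0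
  have hs1 := TM2to1.tr_supports (M := M2) hs2
  have hs0 := TM1to0.tr_supports (M := M1) hs1
  refine ⟨TM2to1.Γ' PartrecToTM2.K' G, TM1to0.Λ' M1, inferInstance, inferInstance, inferInstance,
    M0, _, cell true PartrecToTM2.K'.main .cons, cell false PartrecToTM2.K'.main .bit1,
    cell false PartrecToTM2.K'.main .cons, hs0, ?_⟩
  intro hcon
  apply hc
  refine hcon.of_eq ?_
  intro n
  have hl : TM2to1.trInit (K := PartrecToTM2.K') (Γ := G) PartrecToTM2.K'.main
      (PartrecToTM2.trList (List.replicate (n + 1) 1)) =
      cell true PartrecToTM2.K'.main .cons :: cell false PartrecToTM2.K'.main .bit1 ::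
        (List.replicate n [cell false PartrecToTM2.K'.main .cons,
          cell false PartrecToTM2.K'.main .bit1]).flatten := by
    rw [trList_replicate]
    exact trInit_eq (G := G) PartrecToTM2.K'.main .cons .bit1 n
  have e1 : ∀ l, (StateTransition.eval (TM0.step M0) (TM0.init l)).Dom ↔
      (TM1.eval M1 l).Dom := by
    intro l
    rw [← TM1to0.tr_eval]
    rfl
  have e2 : ∀ l : List (G .main), (TM1.eval M1 (TM2to1.trInit .main l)).Dom ↔
      (TM2.eval M2 .main l).Dom := fun l => TM2to1.tr_eval_dom M2 .main l
  have e3 : (TM2.eval M2 .main (PartrecToTM2.trList (List.replicate (n + 1) 1))).Dom ↔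
      (StateTransition.eval (TM2.step PartrecToTM2.tr)
        (PartrecToTM2.init c (List.replicate (n + 1) 1))).Dom := by
    have : (TM2.init .main (PartrecToTM2.trList (List.replicate (n + 1) 1)) :
        TM2.Cfg G PartrecToTM2.Λ' (Option PartrecToTM2.Γ')) =
        PartrecToTM2.init c (List.replicate (n + 1) 1) := by
      unfold TM2.init PartrecToTM2.init
      congr 1
      funext k
      cases k <;> rfl
    unfold TM2.eval
    rw [this]
    rfl
  rw [PartrecToTM2.tr_eval] at e3
  have e4 : (PartrecToTM2.halt <$> c.eval (List.replicate (n + 1) 1)).Dom ↔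
      (c.eval (List.replicate (n + 1) 1)).Dom := Iff.rfl
  rw [← e4, ← e3, ← e2, ← e1, hl]

end Pool.Agent.Work.MP_e8d052_lc
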