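import Pool.Agent.Work.MP_e8d052_lc.Sound
import Pool.Agent.Work.MP_e8d052_lc.Formula

/-!
# The countermodel attached to a two-stack system that never halts
-/

set_option linter.unusedVariables false
set_option linter.unusedSimpArgs false
set_option linter.constructorNameAsVariable false

namespace Pool.Agent.Work.MP_e8d052_lc

open IFrame

/-- A five-element frame: `z` is the unit, `b` is absorbing, `p * m = b`, and `t` is the unit of
the Boolean part. -/
inductive D5
  | z | p | m | b | t
  deriving DecidableEq

namespace D5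

instance : Fintype D5 := ⟨{z, p, m, b, t}, by intro x; cases x <;> decide⟩

def mul : D5 → D5 → D5
  | z, x => x
  | x, z => x
  | b, _ => b
  | _, b => b
  | t, x => x
  | x, t => x
  | p, p => p
  | m, m => m
  | p, m => b
  | m, p => b

def leb : D5 → D5 → Bool
  | b, _ => true
  | _, t => true
  | z, z => true
  | p, p => true
  | m, m => true
  | _, _ => false

def star : D5 → D5
  | z => z
  | p => m
  | m => p
  | b => t
  | t => b

instance : CommMonoid D5 where
  mul := mul
  mul_assoc := by
    show ∀ x y z : D5, mul (mul x y) z = mul x (mul y z)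
    decide
  one := z
  one_mul := by
    show ∀ x : D5, mul z x = x
    decide
  mul_one := by
    show ∀ x : D5, mul x z = x
    decide
  mul_comm := by
    show ∀ x y : D5, mul x y = mul y x
    decide

instance : PartialOrder D5 where
  le x y := leb x y = true
  le_refl := by
    show ∀ x : D5, leb x x = true
    decide
  le_trans := by
    show ∀ x y z : D5, leb x y = true → leb y z = true → leb x z = true
    decide
  le_antisymm := by
    show ∀ x y : D5, leb x y = true → leb y x = true → x = y
    decide

instance : DecidableLE D5 := fun x y => inferInstanceAs (Decidable (leb x y = true))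

instance {κ : Type} : IFrame (κ → D5) where
  star x := fun k => star (x k)
  idem x := by
    funext k
    have : ∀ a : D5, a * a = a := by decide
    exact this _
  mul_mono x y w h k := by
    have : ∀ a b c : D5, a ≤ b → a * c ≤ b * c := by decide
    exact this _ _ _ (h k)
  star_star x := by
    funext k
    have : ∀ a : D5, star (star a) = a := by decide
    exact this _
  mul_le_one x y := by
    have : ∀ a b : D5, a * b ≤ 1 ↔ a ≤ star b := by decide
    constructor
    · intro h k
      exact (this _ _).1 (h k)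
    · intro h k
      exact (this _ _).2 (h k)
  star_one := by
    funext k
    rfl

end D5

/-- Coordinates: a base coordinate and one coordinate for each word on each side. -/
abbrev Kap := Option (Bool × List ℕ)

abbrev W5 := Kap → D5

open D5 Classical

noncomputable section

def c0 : W5
  | none => p
  | some _ => z

def el (s : Bool) (w : List ℕ) : W5
  | none => z
  | some (s', w') => if s' = s ∧ w' = w then p else z

def du (s : Bool) : W5
  | none => m
  | some (s', w') => if s' = s ∧ w' = [] then m else z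

def ed (s : Bool) (w : List ℕ) (g : ℕ) : W5
  | none => b
  | some (s', w') =>
      if s' = s ∧ (w' = g :: w ∨ w' = w) then m else if s' = s ∧ w' <:+ w then b else z

/-- The valuation. -/
def VA (R : ℕ → List ℕ → List ℕ → Prop) : Atm → W5 → Prop
  | .A s c, y => ∃ w : List ℕ, cls w.length = c ∧ el s w ≤ y
  | .D s, y => du s ≤ y
  | .G s c g, y => ∃ w : List ℕ, cls w.length = c ∧ ed s w g ≤ y
  | .E s, y => ∃ (u w : List ℕ) (g : ℕ), cls u.length = cls w.length ∧ u ≠ w ∧
      c0 * el s u * ed s w g ≤ y
  | .T q c d, y => ∃ u w : List ℕ, cls u.length = c ∧ cls w.length = d ∧ R q u w ∧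
      c0 * el false u * el true w ≤ y
  | .N q c d, y => ∃ u w : List ℕ, cls u.length = c ∧ cls w.length = d ∧ ¬ R q u w ∧
      c0 * el false u * el true w ≤ y

def VV (R : ℕ → List ℕ → List ℕ → Prop) (n : ℕ) (y : W5) : Prop := ∃ a : Atm, a.code = n ∧ VA R a y

variable {R : ℕ → List ℕ → List ℕ → Prop}

theorem VA_mono (a : Atm) (x y : W5) (h : x ≤ y) (hx : VA R a x) : VA R a y := by
  cases a with
  | A s c =>
    obtain ⟨w, h1, h2⟩ := hx
    exact ⟨w, h1, le_trans h2 h⟩
  | D s => exact le_trans hx h
  | G s c g =>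
    obtain ⟨w, h1, h2⟩ := hx
    exact ⟨w, h1, le_trans h2 h⟩
  | E s =>
    obtain ⟨u, w, g, h1, h2, h3⟩ := hx
    exact ⟨u, w, g, h1, h2, le_trans h3 h⟩
  | T q c d =>
    obtain ⟨u, w, h1, h2, h3, h4⟩ := hx
    exact ⟨u, w, h1, h2, h3, le_trans h4 h⟩
  | N q c d =>
    obtain ⟨u, w, h1, h2, h3, h4⟩ := hx
    exact ⟨u, w, h1, h2, h3, le_trans h4 h⟩

theorem VV_mono (n : ℕ) (x y : W5) (h : x ≤ y) (hx : VV R n x) : VV R n y := by
  obtain ⟨a, h1, h2⟩ := hx
  exact ⟨a, h1, VA_mono a x y h h2⟩

theorem sat_v {a : Atm} {y : W5} : Sat (VV R) (v a) y ↔ VA R a y := by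
  constructor
  · rintro ⟨a', h1, h2⟩
    rw [Atm.code_inj h1] at h2
    exact h2
  · intro h
    exact ⟨a, rfl, h⟩

theorem sat_mono {φ : Fml} {x y : W5} (h : x ≤ y) (hx : Sat (VV R) φ x) : Sat (VV R) φ y :=
  Sat.mono VV_mono φ h hx

theorem sat_fus {a b : Fml} {x y w : W5} (hx : Sat (VV R) a x) (hy : Sat (VV R) b y)
    (h : x * y ≤ w) : Sat (VV R) (fus a b) w := by
  intro h1
  have h2 : Sat (VV R) (.neg b) (IFrame.star w * x) := h1 x hx
  apply h2
  refine sat_mono ?_ hy
  rw [← IFrame.mul_le_one]
  have : y * (IFrame.star w * x) = x * y * IFrame.star w := by ac_rfl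
  rw [this, ← IFrame.le_iff]
  exact h

/-! Evaluation of the special points -/

theorem mul_at (x y : W5) (k : Kap) : (x * y) k = x k * y k := rfl

@[simp] theorem c0_none : c0 none = p := rfl
@[simp] theorem c0_some (k) : c0 (some k) = z := rfl
@[simp] theorem el_none (s w) : el s w none = z := rfl
@[simp] theorem el_some (s w s' w') : el s w (some (s', w')) = if s' = s ∧ w' = w then p else z :=
  rfl
@[simp] theorem du_none (s) : du s none = m := rfl
@[simp] theorem du_some (s s' w') : du s (some (s', w')) = if s' = s ∧ w' = [] then m else z := rfl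
@[simp] theorem ed_none (s w g) : ed s w g none = b := rfl
theorem ed_some (s w g s' w') : ed s w g (some (s', w')) =
    if s' = s ∧ (w' = g :: w ∨ w' = w) then m else if s' = s ∧ w' <:+ w then b else z := rfl
@[simp] theorem ed_self (s w g) : ed s w g (some (s, w)) = m := by simp [ed_some]
@[simp] theorem ed_cons (s w g) : ed s w g (some (s, g :: w)) = m := by simp [ed_some]
@[simp] theorem ed_other (s w g s' w') (h : s' ≠ s) : ed s w g (some (s', w')) = z := by
  simp [ed_some, h]

@[simp] theorem z_mul' (x : D5) : z * x = x := by revert x; decide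
@[simp] theorem mul_z' (x : D5) : x * z = x := by revert x; decide
theorem one_eq : (1 : D5) = z := rfl
theorem one_at (k : Kap) : (1 : W5) k = z := rfl

theorem d5_1 : (p * m : D5) ≤ z := by decide
theorem d5_2 : (z * b : D5) ≤ p * m := by decide
theorem d5_3 : (b : D5) ≤ b := by decide

theorem ne_cons (g : ℕ) (w : List ℕ) : g :: w ≠ w := by
  intro h; have := congrArg List.length h; simp at this

theorem ne_cons2 (g d : ℕ) (w : List ℕ) : d :: g :: w ≠ w := by
  intro h; have := congrArg List.length h; simp only [List.length_cons] at this; omega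

theorem not_suffix2 (g d : ℕ) (w : List ℕ) : ¬ (d :: g :: w) <:+ w := by
  intro h; have := h.length_le; simp only [List.length_cons] at this; omega

theorem gen0_le (s : Bool) (d : ℕ) : el s [d] * ed s [] d ≤ c0 * du s := by
  intro k
  rcases k with _ | ⟨s', w'⟩
  · show (z * b : D5) ≤ p * m
    decide
  · simp only [mul_at, el_some, c0_some, du_some, ed_some, z_mul']
    by_cases hs : s' = s
    · subst hs
      by_cases h1 : w' = [d]
      · subst h1
        simp only [and_self, if_true, true_and, true_or, ne_cons, if_false, and_false]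
        exact d5_1
      · by_cases h2 : w' = []
        · subst h2; simp
        · simp [h1, h2]
    · simp [hs]

theorem gen_le (s : Bool) (w : List ℕ) (g d : ℕ) :
    el s (d :: g :: w) * ed s (g :: w) d ≤ c0 * el s w * ed s w g := by
  intro k
  rcases k with _ | ⟨s', w'⟩
  · show (z * b : D5) ≤ p * z * b
    decide
  · simp only [mul_at, el_some, c0_some, ed_some, z_mul']
    by_cases hs : s' = s
    · subst hs
      by_cases h1 : w' = d :: g :: w
      · subst h1
        simp only [ne_cons, ne_cons2, not_suffix2, and_self, and_false, if_true, if_false,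
          true_and, or_false, true_or, or_self, mul_z']
        exact d5_1
      · by_cases h2 : w' = g :: w
        · subst h2
          have e1 : g :: w ≠ w := ne_cons _ _
          simp [h1, e1]
        · by_cases h3 : w' = w
          · subst h3
            have e1 : w' <:+ g :: w' := List.suffix_cons g w'
            simp only [h1, h2, e1, and_self, and_false, if_true, if_false, true_and, or_false,
              or_true, false_or, or_self]
            exact d5_2
          · have e1 : w' <:+ g :: w ↔ w' <:+ w := by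
              rw [List.suffix_cons_iff]; simp [h2]
            simp only [h1, h2, h3, e1, and_self, and_false, if_true, if_false, true_and, or_false,
              or_true, false_or, or_self, z_mul', mul_z']
            exact le_rfl
    · simp [hs]

theorem le_at {x y : W5} (h : x ≤ y) (k : Kap) : x k ≤ y k := h k

theorem d5_link {P Q : Prop} [Decidable P] [Decidable Q]
    (h : m * (if P then p else z) * (if Q then p else z) ≤ (z : D5)) : P ∨ Q := by
  by_cases hP : P
  · exact Or.inl hP
  · by_cases hQ : Q
    · exact Or.inr hQ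
    · simp only [hP, hQ, if_false] at h
      exact absurd h (by decide)

theorem link {s : Bool} {w u u' : List ℕ} {g : ℕ}
    (h1 : m * (if w = u then p else z) * (if w = u' then p else z) ≤ (z : D5))
    (h2 : m * (if g :: w = u then p else z) * (if g :: w = u' then p else z) ≤ (z : D5)) :
    (u = w ∧ u' = g :: w) ∨ (u = g :: w ∧ u' = w) := by
  have hne : g :: w ≠ w := by
    intro h; have := congrArg List.length h; simp at this
  rcases d5_link h1 with h1 | h1 <;> rcases d5_link h2 with h2 | h2
  · exact absurd (h2.trans h1.symm) hne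
  · exact Or.inl ⟨h1.symm, h2.symm⟩
  · exact Or.inr ⟨h2.symm, h1.symm⟩
  · exact absurd (h2.trans h1.symm) hne

/-- In the model, two-premise implications are checked on generators. -/
theorem sat_AA {c d : ℕ} {Z : Fml}
    (h : ∀ u w : List ℕ, cls u.length = c → cls w.length = d →
      Sat (VV R) Z (c0 * el false u * el true w)) :
    Sat (VV R) (.imp (v (.A false c)) (.imp (v (.A true d)) Z)) c0 := by
  intro x hx y hy
  obtain ⟨u, hu1, hu2⟩ := sat_v.1 hx
  obtain ⟨w, hw1, hw2⟩ := sat_v.1 hy
  exact sat_mono (IFrame.mul_mono' (IFrame.mul_mono' le_rfl hu2) hw2) (h u w hu1 hw1)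

theorem sat_pStart {q0 : ℕ} (hR : R q0 [] []) : Sat (VV R) (pStart q0) c0 := by
  refine sat_AA ?_
  intro u w hu hw
  rw [cls_eq_three, List.length_eq_zero_iff] at hu hw
  subst hu; subst hw
  exact sat_v.2 ⟨[], [], rfl, rfl, hR, le_rfl⟩

theorem sat_pPos (q c d : ℕ) : Sat (VV R) (pPos q c d) c0 := by
  refine sat_AA ?_
  intro u w hu hw
  by_cases h : R q u w
  · exact Or.inl (sat_v.2 ⟨u, w, hu, hw, h, le_rfl⟩)
  · exact Or.inr (sat_v.2 ⟨u, w, hu, hw, h, le_rfl⟩)

theorem sat_pHalt (h0 : ∀ u w, ¬ R 0 u w) (c d : ℕ) : Sat (VV R) (pHalt c d) c0 := by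
  refine sat_AA ?_
  intro u w hu hw
  exact sat_v.2 ⟨u, w, hu, hw, h0 u w, le_rfl⟩

theorem sat_pGen0 (s : Bool) (d : ℕ) : Sat (VV R) (pGen0 s d) c0 := by
  intro x hx
  have hx' : du s ≤ x := sat_v.1 hx
  refine sat_fus (x := el s [d]) (y := ed s [] d) ?_ ?_ ?_
  · exact sat_v.2 ⟨[d], rfl, le_rfl⟩
  · exact sat_v.2 ⟨[], rfl, le_rfl⟩
  · exact le_trans (gen0_le s d) (IFrame.mul_mono' le_rfl hx')

theorem sat_pGen (s : Bool) (c g d : ℕ) : Sat (VV R) (pGen s c g d) c0 := by
  intro x hx y hy
  obtain ⟨u, hu1, hu2⟩ := sat_v.1 hx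
  obtain ⟨w, hw1, hw2⟩ := sat_v.1 hy
  have hle : c0 * el s u * ed s w g ≤ c0 * x * y :=
    IFrame.mul_mono' (IFrame.mul_mono' le_rfl hu2) hw2
  by_cases huw : u = w
  · subst huw
    left
    refine sat_fus (x := el s (d :: g :: u)) (y := ed s (g :: u) d) ?_ ?_ ?_
    · refine sat_v.2 ⟨d :: g :: u, ?_, le_rfl⟩
      rw [List.length_cons, List.length_cons, cls_succ, cls_succ, hu1]
    · refine sat_v.2 ⟨g :: u, ?_, le_rfl⟩
      rw [List.length_cons, cls_succ, hu1]
    · exact le_trans (gen_le s u g d) hle
  · right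
    exact sat_v.2 ⟨u, w, g, hu1.trans hw1.symm, huw, hle⟩

theorem sat_pEsc (s : Bool) (c : ℕ) : Sat (VV R) (pEsc s c) c0 := by
  intro x hx hE
  obtain ⟨y, hy1, hy2⟩ := sat_v.1 hx
  obtain ⟨u, w, g, h1, h2, h3⟩ := sat_v.1 hE
  rw [← IFrame.mul_le_one] at h3
  have h4 : c0 * el s u * ed s w g * (c0 * el s y) ≤ 1 :=
    le_trans (IFrame.mul_mono' le_rfl (IFrame.mul_mono' le_rfl hy2)) h3
  have h5 := h4 (some (s, w))
  have h6 := h4 (some (s, g :: w))
  simp only [mul_at, el_some, c0_some, ed_self, ed_cons, z_mul', true_and, one_at] at h5 h6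
  have h7 := link (s := s) (w := w) (u := u) (u' := y) (g := g)
    (by rw [mul_comm m]; exact h5) (by rw [mul_comm m]; exact h6)
  rcases h7 with ⟨h7, -⟩ | ⟨h7, h8⟩
  · exact h2 h7
  · subst h7
    rw [List.length_cons, cls_succ] at h1
    exact nxt_ne _ h1

theorem sat_pRule {r : SRule}
    (hr : ∀ u w u' w', R r.q u w → Mv r.p1 r.g u u' → Mv r.p2 r.d w w' → R r.q' u' w')
    (c d : ℕ) : Sat (VV R) (pRule r c d) c0 := by
  intro x hx y hy t ht hN
  obtain ⟨w1, hw1, hx'⟩ := sat_v.1 hx
  obtain ⟨w2, hw2, hy'⟩ := sat_v.1 hy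
  obtain ⟨u1, u2, hu1, hu2, hR, ht'⟩ := sat_v.1 ht
  obtain ⟨n1, n2, hn1, hn2, hnR, hn'⟩ := sat_v.1 hN
  rw [← IFrame.mul_le_one] at hn'
  have h4 : c0 * el false n1 * el true n2 *
      (c0 * ed false w1 r.g * ed true w2 r.d * (c0 * el false u1 * el true u2)) ≤ 1 :=
    le_trans (IFrame.mul_mono' le_rfl (IFrame.mul_mono' (IFrame.mul_mono'
      (IFrame.mul_mono' le_rfl hx') hy') ht')) hn'
  have a1 := h4 (some (false, w1))
  have a2 := h4 (some (false, r.g :: w1))
  have b1 := h4 (some (true, w2))
  have b2 := h4 (some (true, r.d :: w2))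
  simp only [mul_at, el_some, c0_some, ed_self, ed_cons, z_mul', true_and, one_at,
    Bool.false_eq_true, Bool.true_eq_false, false_and, if_false, mul_z', ne_eq, not_false_eq_true,
    ed_other, reduceCtorEq] at a1 a2 b1 b2
  have l1 := link (s := false) (w := w1) (u := n1) (u' := u1) (g := r.g)
    (by rw [mul_comm m, mul_assoc]; exact a1) (by rw [mul_comm m, mul_assoc]; exact a2)
  have l2 := link (s := true) (w := w2) (u := n2) (u' := u2) (g := r.d)
    (by rw [mul_comm m, mul_assoc]; exact b1) (by rw [mul_comm m, mul_assoc]; exact b2)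
  have m1 : Mv r.p1 r.g u1 n1 := by
    rcases l1 with ⟨e1, e2⟩ | ⟨e1, e2⟩
    · subst e1; subst e2
      rcases hp : r.p1 with _ | _
      · exact Or.inr ⟨rfl, rfl⟩
      · exfalso
        rw [hp] at hu1
        simp only [lo, if_true] at hu1
        rw [← hw1, List.length_cons, cls_succ] at hu1
        exact nxt_ne _ hu1
    · subst e1; subst e2
      rcases hp : r.p1 with _ | _
      · exfalso
        rw [hp] at hu1
        simp only [lo, Bool.false_eq_true, if_false] at hu1
        rw [← hw1] at hu1
        exact nxt_ne _ hu1.symm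
      · exact Or.inl ⟨rfl, rfl⟩
  have m2 : Mv r.p2 r.d u2 n2 := by
    rcases l2 with ⟨e1, e2⟩ | ⟨e1, e2⟩
    · subst e1; subst e2
      rcases hp : r.p2 with _ | _
      · exact Or.inr ⟨rfl, rfl⟩
      · exfalso
        rw [hp] at hu2
        simp only [lo, if_true] at hu2
        rw [← hw2, List.length_cons, cls_succ] at hu2
        exact nxt_ne _ hu2
    · subst e1; subst e2
      rcases hp : r.p2 with _ | _
      · exfalso
        rw [hp] at hu2
        simp only [lo, Bool.false_eq_true, if_false] at hu2
        rw [← hw2] at hu2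
        exact nxt_ne _ hu2.symm
      · exact Or.inl ⟨rfl, rfl⟩
  exact hnR (hr _ _ _ _ hR m1 m2)

/-- All pieces hold at `c0` in the model of reachability. -/
theorem sat_piece {rules : List SRule} {q0 : ℕ} (h0 : ∀ u w, ¬ Reach rules q0 0 u w)
    {φ : Fml} (h : Piece rules q0 φ) : Sat (VV (Reach rules q0)) φ c0 := by
  induction h with
  | start => exact sat_pStart .start
  | pos q c d => exact sat_pPos q c d
  | halt c d => exact sat_pHalt h0 c d
  | rule r c d hr =>
    exact sat_pRule (fun u w u' w' h1 h2 h3 => Reach.step h1 hr rfl h2 h3) c d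
  | gen0 s d => exact sat_pGen0 s d
  | gen s c g d => exact sat_pGen s c g d
  | esc s c => exact sat_pEsc s c
  | and a b ha hb iha ihb => exact ⟨iha, ihb⟩

theorem not_sat_chi : ¬ Sat (VV R) chi c0 := by
  have key : ∀ s : Bool, ¬ Sat (VV R) (.imp (v (.A s 3)) (.neg (v (.D s)))) c0 := by
    intro s h
    have h1 : Sat (VV R) (v (.A s 3)) (el s []) := sat_v.2 ⟨[], rfl, le_rfl⟩
    apply h _ h1
    refine sat_v.2 ?_
    show du s ≤ IFrame.star (c0 * el s [])
    rw [← IFrame.mul_le_one]
    intro k
    rcases k with _ | ⟨s', w'⟩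
    · show (m * (p * z) : D5) ≤ z
      decide
    · simp only [mul_at, el_some, c0_some, du_some, z_mul', one_at]
      by_cases hh : s' = s ∧ w' = []
      · simp only [hh, and_self, if_true]
        show (m * p : D5) ≤ z
        decide
      · simp only [hh, if_false]
        show (z * z : D5) ≤ z
        decide
  rintro (h | h)
  · exact key false h
  · exact key true h

/-- If the halting state `0` is not reachable, then the formula is not acceptable. -/
theorem not_acceptable {rules : List SRule} {q0 : ℕ} (h0 : ∀ u w, ¬ Reach rules q0 0 u w)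
    {Θ : Fml} (h : Piece rules q0 Θ) : ¬ Acceptable (.imp Θ chi) := by
  intro hacc
  have h1 := acceptable_valid (V := VV (Reach rules q0)) VV_mono hacc
  have h2 := h1 c0 (sat_piece h0 h)
  rw [one_mul] at h2
  exact not_sat_chi h2

end

end Pool.Agent.Work.MP_e8d052_lc
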