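import Pool.Agent.Work.MP_e8d052_lc.Theta
import Pool.Agent.Work.MP_e8d052_lc.Model

/-!
# Undecidability of acceptability
-/

namespace Pool.Agent.Work.MP_e8d052_lc

open Turing

/-- The reduction: a computable sequence of formulae `F n` and an undecidable predicate `P` such
that `F n` has a closed truth-tree (relative to any set) when `P n` holds and is not acceptable
when `P n` fails. -/
theorem exists_reduction : ∃ (F : ℕ → Fml) (P : ℕ → Prop), Primrec (fun n => (F n).code) ∧
    ¬ ComputablePred P ∧ (∀ n, P n → ∀ S, TreeFor S (F n)) ∧ (∀ n, Acceptable (F n) → P n) := by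
  obtain ⟨Γ, Λ, _, _, _, M, S, x, y, w, hS, hM⟩ := exists_TM0
  refine ⟨fun n => .imp (theta M S x y w n) chi, _, PF_theta M S x y w, hM, ?_, ?_⟩
  · intro n hn T
    exact treeFor_of_halts (full_theta M S x y w n) (symbols_theta M S x y w n) (by simp [ci])
      (halts_of_dom (fun r hr => (mem_allRules M S x y w).2 hr) hS hn)
  · intro n hn
    by_contra hcon
    refine not_acceptable (rules := allRules M S x y w n) (q0 := ci 0) ?_
      (piece_theta M S x y w n) hn
    intro u v hu
    exact hcon (dom_of_reach (fun r hr => (mem_allRules M S x y w).1 hr) hS hu)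

/-- The set of acceptable formulae is not decidable. -/
theorem acceptable_undecidable :
    ¬ ∃ f : ℕ → Bool, Computable f ∧ ∀ φ : Fml, (f φ.code = true ↔ Acceptable φ) := by
  rintro ⟨f, hf, h⟩
  obtain ⟨F, P, hF, hP, h1, h2⟩ := exists_reduction
  apply hP
  refine ComputablePred.computable_iff.2 ⟨fun n => f (F n).code, hf.comp hF.to_comp, ?_⟩
  funext n
  apply propext
  rw [h]
  constructor
  · intro hn S hS
    exact hS _ (h1 n hn S)
  · exact h2 n

end Pool.Agent.Work.MP_e8d052_lc
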