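import Pool.Agent.Work.MP_e8d052_lc.Sound
import Pool.Agent.Work.MP_e8d052_lc.Formula

/-!
# If the halting state is reachable, the formula has a closed truth-tree
-/

set_option linter.unusedVariables false

namespace Pool.Agent.Work.MP_e8d052_lc

open IFrame

/-- Parity of an abstract label. -/
def par (a : Finset ℕ) : Prop := ∀ k, 2 * k ∈ a ↔ 2 * k + 1 ∈ a

/-- An abstract labelled calculus: formulae are labelled by the set of critical nodes in their
trace, the `k`-th critical pair being `2k, 2k+1`. -/
inductive LC : ℕ → Set (Fml × Finset ℕ) → Prop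
  | crash {n : ℕ} {Γ : Set (Fml × Finset ℕ)} {ζ : Fml} {a b : Finset ℕ} :
      (ζ, a) ∈ Γ → (.neg ζ, b) ∈ Γ → par (a ∪ b) → LC n Γ
  | dneg {n : ℕ} {Γ : Set (Fml × Finset ℕ)} {α : Fml} {a : Finset ℕ} :
      (.neg (.neg α), a) ∈ Γ → LC n (insert (α, a) Γ) → LC n Γ
  | conj {n : ℕ} {Γ : Set (Fml × Finset ℕ)} {α β : Fml} {a : Finset ℕ} :
      (.and α β, a) ∈ Γ → LC n (insert (β, a) (insert (α, a) Γ)) → LC n Γ
  | negDisj {n : ℕ} {Γ : Set (Fml × Finset ℕ)} {α β : Fml} {a : Finset ℕ} :
      (.neg (.or α β), a) ∈ Γ → LC n (insert (.neg β, a) (insert (.neg α, a) Γ)) → LC n Γ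
  | disj {n : ℕ} {Γ : Set (Fml × Finset ℕ)} {α β : Fml} {a : Finset ℕ} :
      (.or α β, a) ∈ Γ → LC n (insert (α, a) Γ) → LC n (insert (β, a) Γ) → LC n Γ
  | counter {n : ℕ} {Γ : Set (Fml × Finset ℕ)} {α β : Fml} {a : Finset ℕ} :
      (.neg (.imp α β), a) ∈ Γ →
      LC (n + 1) (insert (.neg β, insert (2 * n + 1) a) (insert (α, insert (2 * n) a) Γ)) → LC n Γ
  | mp {n : ℕ} {Γ : Set (Fml × Finset ℕ)} {α β : Fml} {a b : Finset ℕ} :
      (α, a) ∈ Γ → (.imp α β, b) ∈ Γ → LC n (insert (β, a ∪ b) Γ) → LC n Γ

/-- A branch realizes an abstract state. -/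
structure Real (B : List Node) (f : ℕ → ℕ) (n : ℕ) (Γ : Set (Fml × Finset ℕ)) : Prop where
  wf : WF B
  lt : ∀ j < 2 * n, f j < B.length
  inj : ∀ i < 2 * n, ∀ j < 2 * n, f i = f j → i = j
  crit : ∀ (c d : ℕ) (N : Node), B[c]? = some N → N.partner = some d →
    ∃ k < n, (c = f (2 * k) ∧ d = f (2 * k + 1)) ∨ (c = f (2 * k + 1) ∧ d = f (2 * k))
  facts : ∀ φ a, (φ, a) ∈ Γ → (∀ j ∈ a, j < 2 * n) ∧
    ∃ i, At B i φ ∧ ∀ j < 2 * n, (InTrace B i (f j) ↔ j ∈ a)

theorem At.append {B L : List Node} {i : ℕ} {φ : Fml} (h : At B i φ) : At (B ++ L) i φ := by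
  obtain ⟨N, hN, rfl⟩ := h
  exact ⟨N, by rw [List.getElem?_append_left (lt_of_getElem? hN)]; exact hN, rfl⟩

/-- Adding a non-critical node. -/
theorem Real.plain {B : List Node} {f : ℕ → ℕ} {n : ℕ} {Γ : Set (Fml × Finset ℕ)}
    (h : Real B f n Γ) {φ : Fml} {ins : List ℕ} (hins : ∀ i ∈ ins, i < B.length)
    {a : Finset ℕ} (ha : ∀ j < 2 * n, ((∃ i ∈ ins, InTrace B i (f j)) ↔ j ∈ a))
    (hal : ∀ j ∈ a, j < 2 * n) :
    Real (B ++ [⟨φ, ins, none⟩]) f n (insert (φ, a) Γ) := by
  have hnew : (B ++ [⟨φ, ins, none⟩])[B.length]? = some (⟨φ, ins, none⟩ : Node) := by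
    rw [List.getElem?_append_right le_rfl]; simp
  refine ⟨?_, ?_, h.inj, ?_, ?_⟩
  · intro i N hN
    rcases getElem?_append_cases hN with ⟨hi, hN⟩ | ⟨j, hj, rfl, hN⟩
    · refine ⟨(h.wf i N hN).1, fun d hd => ?_⟩
      have := (h.wf i N hN).2 d hd
      simp; omega
    · have : j = 0 := by simpa using hj
      subst this
      simp at hN
      subst hN
      refine ⟨fun k hk => ?_, fun d hd => by simp at hd⟩
      have := hins k hk
      omega
  · intro j hj
    have := h.lt j hj
    simp; omega
  · intro c d N hN hd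
    rcases getElem?_append_cases hN with ⟨hi, hN⟩ | ⟨j, hj, rfl, hN⟩
    · exact h.crit c d N hN hd
    · have : j = 0 := by simpa using hj
      subst this
      simp at hN
      subst hN
      simp at hd
  · intro ψ b hb
    rcases hb with hb | hb
    · cases hb
      refine ⟨hal, B.length, ⟨_, hnew, rfl⟩, fun j hj => ?_⟩
      rw [inTrace_new hnew, ← ha j hj]
      have hlt := h.lt j hj
      constructor
      · rintro (h1 | ⟨k, hk, hkt⟩)
        · omega
        · exact ⟨k, hk, ((inTrace_append h.wf (hins k hk)).1 hkt).1⟩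
      · rintro ⟨k, hk, hkt⟩
        exact Or.inr ⟨k, hk, (inTrace_append h.wf (hins k hk)).2 ⟨hkt, hlt⟩⟩
    · obtain ⟨hb', i, hi, hij⟩ := h.facts ψ b hb
      refine ⟨hb', i, hi.append, fun j hj => ?_⟩
      rw [inTrace_append h.wf (At.lt hi), ← hij j hj]
      have := h.lt j hj
      simp [this]

/-- Adding a critical pair. -/
theorem Real.critical {B : List Node} {f : ℕ → ℕ} {n : ℕ} {Γ : Set (Fml × Finset ℕ)}
    (h : Real B f n Γ) {φ ψ : Fml} {p : ℕ} (hp : p < B.length)
    {a : Finset ℕ} (ha : ∀ j < 2 * n, (InTrace B p (f j) ↔ j ∈ a))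
    (hal : ∀ j ∈ a, j < 2 * n) :
    Real (B ++ [⟨φ, [p], some (B.length + 1)⟩, ⟨ψ, [p], some B.length⟩])
      (fun j => if j < 2 * n then f j else B.length + (j - 2 * n)) (n + 1)
      (insert (ψ, insert (2 * n + 1) a) (insert (φ, insert (2 * n) a) Γ)) := by
  set L : List Node := [⟨φ, [p], some (B.length + 1)⟩, ⟨ψ, [p], some B.length⟩] with hL
  have hnew1 : (B ++ L)[B.length]? = some (⟨φ, [p], some (B.length + 1)⟩ : Node) := by
    rw [List.getElem?_append_right le_rfl]; simp [hL]
  have hnew2 : (B ++ L)[B.length + 1]? = some (⟨ψ, [p], some B.length⟩ : Node) := by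
    rw [List.getElem?_append_right (by omega)]; simp [hL]
  have htr : ∀ i < B.length, ∀ m, InTrace (B ++ L) i m ↔ InTrace B i m ∧ m < B.length :=
    fun i hi m => inTrace_append h.wf hi
  refine ⟨?_, ?_, ?_, ?_, ?_⟩
  · intro i N hN
    rcases getElem?_append_cases hN with ⟨hi, hN⟩ | ⟨j, hj, rfl, hN⟩
    · refine ⟨(h.wf i N hN).1, fun d hd => ?_⟩
      have := (h.wf i N hN).2 d hd
      simp; omega
    · have : j = 0 ∨ j = 1 := by simp [hL] at hj; omega
      rcases this with rfl | rfl
      · simp [hL] at hN
        subst hN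
        refine ⟨fun k hk => ?_, fun d hd => ?_⟩
        · simp at hk; omega
        · simp at hd; subst hd; simp [hL]
      · simp [hL] at hN
        subst hN
        refine ⟨fun k hk => ?_, fun d hd => ?_⟩
        · simp at hk; omega
        · simp at hd; subst hd; simp [hL]
  · intro j hj
    split_ifs with hjn
    · have := h.lt j hjn
      simp; omega
    · simp [hL]; omega
  · intro i hi j hj hij
    split_ifs at hij with h1 h2 h2
    · exact h.inj i h1 j h2 hij
    · have := h.lt i h1
      omega
    · have := h.lt j h2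
      omega
    · omega
  · intro c d N hN hd
    rcases getElem?_append_cases hN with ⟨hi, hN⟩ | ⟨j, hj, rfl, hN⟩
    · obtain ⟨k, hk, hkk⟩ := h.crit c d N hN hd
      refine ⟨k, by omega, ?_⟩
      rw [if_pos (by omega), if_pos (by omega)]
      exact hkk
    · have : j = 0 ∨ j = 1 := by simp [hL] at hj; omega
      refine ⟨n, by omega, ?_⟩
      rw [if_neg (by omega), if_neg (by omega)]
      rcases this with rfl | rfl
      · simp [hL] at hN
        subst hN
        simp at hd
        left
        constructor <;> omega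
      · simp [hL] at hN
        subst hN
        simp at hd
        right
        constructor <;> omega
  · intro χ b hb
    rcases hb with hb | hb | hb
    · cases hb
      refine ⟨fun j hj => by
        rw [Finset.mem_insert] at hj
        rcases hj with rfl | hj
        · omega
        · have := hal j hj; omega, B.length + 1, ⟨_, hnew2, rfl⟩, fun j hj => ?_⟩
      rw [inTrace_new hnew2]
      simp only [List.mem_singleton, exists_eq_left, Finset.mem_insert]
      rw [htr p hp]
      by_cases hjn : j < 2 * n
      · rw [if_pos hjn, ha j hjn]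
        have := h.lt j hjn
        constructor
        · rintro (h1 | h1)
          · omega
          · exact Or.inr h1.1
        · rintro (h1 | h1)
          · omega
          · exact Or.inr ⟨h1, this⟩
      · rw [if_neg hjn]
        constructor
        · rintro (h1 | h1)
          · left; omega
          · omega
        · rintro (h1 | h1)
          · left; omega
          · exact absurd (hal j h1) hjn
    · cases hb
      refine ⟨fun j hj => by
        rw [Finset.mem_insert] at hj
        rcases hj with rfl | hj
        · omega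
        · have := hal j hj; omega, B.length, ⟨_, hnew1, rfl⟩, fun j hj => ?_⟩
      rw [inTrace_new hnew1]
      simp only [List.mem_singleton, exists_eq_left, Finset.mem_insert]
      rw [htr p hp]
      by_cases hjn : j < 2 * n
      · rw [if_pos hjn, ha j hjn]
        have := h.lt j hjn
        constructor
        · rintro (h1 | h1)
          · omega
          · exact Or.inr h1.1
        · rintro (h1 | h1)
          · omega
          · exact Or.inr ⟨h1, this⟩
      · rw [if_neg hjn]
        constructor
        · rintro (h1 | h1)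
          · left; omega
          · omega
        · rintro (h1 | h1)
          · left; omega
          · exact absurd (hal j h1) hjn
    · obtain ⟨hb', i, hi, hij⟩ := h.facts χ b hb
      refine ⟨fun j hj => by have := hb' j hj; omega, i, hi.append, fun j hj => ?_⟩
      rw [htr i (At.lt hi)]
      by_cases hjn : j < 2 * n
      · rw [if_pos hjn, hij j hjn]
        have := h.lt j hjn
        simp [this]
      · rw [if_neg hjn]
        constructor
        · rintro ⟨-, h1⟩
          omega
        · intro h1
          exact absurd (hb' j h1) hjn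

/-- The abstract calculus is simulated by truth-trees. -/
theorem LC.closes {S : Fml → Prop} {n : ℕ} {Γ : Set (Fml × Finset ℕ)} (hc : LC n Γ) :
    ∀ (B : List Node) (f : ℕ → ℕ), Real B f n Γ → Closes S B := by
  induction hc with
  | @crash n Γ ζ a b ha hb hp =>
    intro B f h
    obtain ⟨-, i, hi, hij⟩ := h.facts _ _ ha
    obtain ⟨-, j, hj, hjj⟩ := h.facts _ _ hb
    refine .crash ⟨i, j, ζ, hi, hj, ?_⟩
    intro c d N hN hd
    obtain ⟨k, hk, hkk⟩ := h.crit c d N hN hd
    have h0 := hij (2 * k) (by omega)
    have h1 := hij (2 * k + 1) (by omega)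
    have h2 := hjj (2 * k) (by omega)
    have h3 := hjj (2 * k + 1) (by omega)
    have h4 := hp k
    rw [Finset.mem_union, Finset.mem_union] at h4
    rcases hkk with ⟨rfl, rfl⟩ | ⟨rfl, rfl⟩
    · rw [h0, h1, h2, h3]; exact h4
    · rw [h0, h1, h2, h3]; exact h4.symm
  | @dneg n Γ α a ha hc ih =>
    intro B f h
    obtain ⟨hal, i, hi, hij⟩ := h.facts _ _ ha
    refine .step (.dneg hi) ?_
    intro L hL
    simp at hL
    subst hL
    exact ih _ f (h.plain (by simpa using At.lt hi) (by simpa using hij) hal)
  | @conj n Γ α β a ha hc ih =>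
    intro B f h
    obtain ⟨hal, i, hi, hij⟩ := h.facts _ _ ha
    refine .step (.conj hi) ?_
    intro L hL
    simp at hL
    subst hL
    have h1 := h.plain (φ := α) (ins := [i]) (by simpa using At.lt hi) (by simpa using hij) hal
    have h2 := h1.plain (φ := β) (ins := [i])
      (by have := At.lt hi; simp; omega) (a := a)
      (by
        intro j hj
        simp only [List.mem_singleton, exists_eq_left]
        rw [inTrace_append h.wf (At.lt hi), ← hij j hj]
        have := h.lt j hj
        simp [this]) hal
    rw [List.append_assoc] at h2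
    exact ih _ f h2
  | @negDisj n Γ α β a ha hc ih =>
    intro B f h
    obtain ⟨hal, i, hi, hij⟩ := h.facts _ _ ha
    refine .step (.negDisj hi) ?_
    intro L hL
    simp at hL
    subst hL
    have h1 := h.plain (φ := .neg α) (ins := [i]) (by simpa using At.lt hi)
      (by simpa using hij) hal
    have h2 := h1.plain (φ := .neg β) (ins := [i])
      (by have := At.lt hi; simp; omega) (a := a)
      (by
        intro j hj
        simp only [List.mem_singleton, exists_eq_left]
        rw [inTrace_append h.wf (At.lt hi), ← hij j hj]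
        have := h.lt j hj
        simp [this]) hal
    rw [List.append_assoc] at h2
    exact ih _ f h2
  | @disj n Γ α β a ha hc1 hc2 ih1 ih2 =>
    intro B f h
    obtain ⟨hal, i, hi, hij⟩ := h.facts _ _ ha
    refine .step (.disj hi) ?_
    intro L hL
    simp at hL
    rcases hL with rfl | rfl
    · exact ih1 _ f (h.plain (by simpa using At.lt hi) (by simpa using hij) hal)
    · exact ih2 _ f (h.plain (by simpa using At.lt hi) (by simpa using hij) hal)
  | @counter n Γ α β a ha hc ih =>
    intro B f h
    obtain ⟨hal, i, hi, hij⟩ := h.facts _ _ ha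
    refine .step (.counterCase hi) ?_
    intro L hL
    simp at hL
    subst hL
    exact ih _ _ (h.critical (At.lt hi) hij hal)
  | @mp n Γ α β a b ha hb hc ih =>
    intro B f h
    obtain ⟨hal, i, hi, hij⟩ := h.facts _ _ ha
    obtain ⟨hbl, j, hj, hjj⟩ := h.facts _ _ hb
    refine .step (.modusPonens hi hj) ?_
    intro L hL
    simp at hL
    subst hL
    refine ih _ f (h.plain ?_ ?_ ?_)
    · intro k hk
      simp at hk
      rcases hk with rfl | rfl
      · exact At.lt hi
      · exact At.lt hj
    · intro k hk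
      rw [Finset.mem_union, ← hij k hk, ← hjj k hk]
      simp
    · intro k hk
      rw [Finset.mem_union] at hk
      rcases hk with hk | hk
      · exact hal k hk
      · exact hbl k hk

/-- An abstract refutation of the root gives a truth-tree. -/
theorem LC.treeFor {S : Fml → Prop} {φ : Fml} (h : LC 0 {(.neg φ, ∅)}) : TreeFor S φ := by
  refine h.closes _ (fun _ => 0) ⟨?_, ?_, ?_, ?_, ?_⟩
  · intro i N hN
    rcases i with _ | i
    · simp at hN; subst hN; simp
    · simp at hN
  · intro j hj; omega
  · intro i hi; omega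
  · intro c d N hN hd
    rcases c with _ | c
    · simp at hN; subst hN; simp at hd
    · simp at hN
  · intro ψ a ha
    cases ha
    exact ⟨by simp, 0, ⟨_, rfl, rfl⟩, fun j hj => by omega⟩

end Pool.Agent.Work.MP_e8d052_lc
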