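import Pool.Agent.Work.MP_e8d052_lc.Defs

/-!
# Soundness of acceptability for a class of frames
-/

set_option linter.unusedVariables false

namespace Pool.Agent.Work.MP_e8d052_lc

/-- A frame: an ordered commutative idempotent monoid with an involution `star` such that
`x * y ≤ 1 ↔ x ≤ star y`, and `star 1 = 1`. -/
class IFrame (W : Type) extends CommMonoid W, PartialOrder W where
  star : W → W
  idem : ∀ x : W, x * x = x
  mul_mono : ∀ x y z : W, x ≤ y → x * z ≤ y * z
  star_star : ∀ x : W, star (star x) = x
  mul_le_one : ∀ x y : W, x * y ≤ 1 ↔ x ≤ star y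
  star_one : star 1 = 1

namespace IFrame

variable {W : Type} [IFrame W]

theorem mul_mono' {x y z t : W} (h : x ≤ y) (h' : z ≤ t) : x * z ≤ y * t := by
  refine le_trans (mul_mono _ _ _ h) ?_
  rw [mul_comm y z, mul_comm y t]
  exact mul_mono _ _ _ h'

theorem mul_star_le (x : W) : x * star x ≤ 1 := by
  rw [mul_le_one, star_star]

theorem star_mul_le (x : W) : star x * x ≤ 1 := by
  rw [mul_comm]; exact mul_star_le x

theorem star_anti {x y : W} (h : x ≤ y) : star y ≤ star x := by
  rw [← mul_le_one]
  exact le_trans (mul_mono' le_rfl h) (star_mul_le y)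

theorem le_iff {x y : W} : x ≤ y ↔ x * star y ≤ 1 := by
  rw [mul_le_one, star_star]

/-- Truth of a formula at a point. -/
def Sat (V : ℕ → W → Prop) : Fml → W → Prop
  | .var n, x => V n x
  | .neg a, x => ¬ Sat V a (star x)
  | .and a b, x => Sat V a x ∧ Sat V b x
  | .or a b, x => Sat V a x ∨ Sat V b x
  | .imp a b, x => ∀ y, Sat V a y → Sat V b (x * y)

variable {V : ℕ → W → Prop}

theorem Sat.mono (hV : ∀ n x y, x ≤ y → V n x → V n y) :
    ∀ (φ : Fml) {x y : W}, x ≤ y → Sat V φ x → Sat V φ y
  | .var n, x, y, h, hx => hV n x y h hx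
  | .neg a, x, y, h, hx => fun hy => hx (Sat.mono hV a (star_anti h) hy)
  | .and a b, x, y, h, hx => ⟨Sat.mono hV a h hx.1, Sat.mono hV b h hx.2⟩
  | .or a b, x, y, h, hx => hx.imp (Sat.mono hV a h) (Sat.mono hV b h)
  | .imp a b, x, y, h, hx => fun z hz => Sat.mono hV b (mul_mono _ _ _ h) (hx z hz)

/-- A branch together with labels of its nodes by points of the frame. -/
inductive Good (V : ℕ → W → Prop) : List Node → (ℕ → W) → Prop
  | root {φ : Fml} {l : ℕ → W} : l 0 = 1 → Sat V φ (l 0) → Good V [⟨φ, [], none⟩] l
  | plain {B : List Node} {l l' : ℕ → W} {φ : Fml} {ins : List ℕ} :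
      Good V B l → (∀ i < B.length, l' i = l i) → (∀ i ∈ ins, i < B.length) →
      l' B.length = ∏ i ∈ ins.toFinset, l i → Sat V φ (l' B.length) →
      Good V (B ++ [⟨φ, ins, none⟩]) l'
  | crit {B : List Node} {l l' : ℕ → W} {φ ψ : Fml} {p : ℕ} :
      Good V B l → (∀ i < B.length, l' i = l i) → p < B.length →
      l' B.length * l' (B.length + 1) ≤ l p →
      Sat V φ (l' B.length) → Sat V ψ (l' (B.length + 1)) →
      Good V (B ++ [⟨φ, [p], some (B.length + 1)⟩, ⟨ψ, [p], some B.length⟩]) l'

theorem getElem?_append_cases {α : Type} {B L : List α} {i : ℕ} {N : α}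
    (h : (B ++ L)[i]? = some N) :
    (i < B.length ∧ B[i]? = some N) ∨ (∃ j, j < L.length ∧ i = B.length + j ∧ L[j]? = some N) := by
  by_cases hi : i < B.length
  · rw [List.getElem?_append_left hi] at h
    exact Or.inl ⟨hi, h⟩
  · rw [List.getElem?_append_right (by omega)] at h
    refine Or.inr ⟨i - B.length, ?_, by omega, h⟩
    by_contra hc
    rw [List.getElem?_eq_none (by omega)] at h
    cases h

theorem lt_of_getElem? {α : Type} {B : List α} {i : ℕ} {N : α} (h : B[i]? = some N) :
    i < B.length := by
  by_contra hc
  rw [List.getElem?_eq_none (by omega)] at h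
  cases h

/-- Well-formedness: inputs are earlier nodes, partners are on the branch. -/
def WF (B : List Node) : Prop :=
  ∀ (i : ℕ) (N : Node), B[i]? = some N →
    (∀ k ∈ N.inputs, k < i) ∧ (∀ d, N.partner = some d → d < B.length)

theorem Good.wf {B : List Node} {l : ℕ → W} (h : Good V B l) : WF B := by
  induction h with
  | root h1 h2 =>
    intro i N hN
    rcases i with _ | i
    · simp at hN; subst hN; simp
    · simp at hN
  | @plain B l l' φ ins hB hl hins hl' hs ih =>
    intro i N hN
    rcases getElem?_append_cases hN with ⟨hi, hN⟩ | ⟨j, hj, rfl, hN⟩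
    · refine ⟨(ih i N hN).1, fun d hd => ?_⟩
      have := (ih i N hN).2 d hd
      simp; omega
    · have : j = 0 := by simpa using hj
      subst this
      simp at hN
      subst hN
      refine ⟨fun k hk => ?_, fun d hd => by simp at hd⟩
      have := hins k hk
      omega
  | @crit B l l' φ ψ p hB hl hp hl' hs1 hs2 ih =>
    intro i N hN
    rcases getElem?_append_cases hN with ⟨hi, hN⟩ | ⟨j, hj, rfl, hN⟩
    · refine ⟨(ih i N hN).1, fun d hd => ?_⟩
      have := (ih i N hN).2 d hd
      simp; omega
    · have : j = 0 ∨ j = 1 := by simp at hj; omega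
      rcases this with rfl | rfl
      · simp at hN
        subst hN
        refine ⟨fun k hk => ?_, fun d hd => ?_⟩
        · simp at hk; omega
        · simp at hd; subst hd; simp
      · simp at hN
        subst hN
        refine ⟨fun k hk => ?_, fun d hd => ?_⟩
        · simp at hk; omega
        · simp at hd; subst hd; simp

theorem Good.sat {B : List Node} {l : ℕ → W} (h : Good V B l) :
    ∀ (i : ℕ) (N : Node), B[i]? = some N → Sat V N.fml (l i) := by
  induction h with
  | root h1 h2 =>
    intro i N hN
    rcases i with _ | i
    · simp at hN; subst hN; exact h2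
    · simp at hN
  | @plain B l l' φ ins hB hl hins hl' hs ih =>
    intro i N hN
    rcases getElem?_append_cases hN with ⟨hi, hN⟩ | ⟨j, hj, rfl, hN⟩
    · rw [hl i hi]
      exact ih i N hN
    · have : j = 0 := by simpa using hj
      subst this
      simp at hN
      subst hN
      exact hs
  | @crit B l l' φ ψ p hB hl hp hl' hs1 hs2 ih =>
    intro i N hN
    rcases getElem?_append_cases hN with ⟨hi, hN⟩ | ⟨j, hj, rfl, hN⟩
    · rw [hl i hi]
      exact ih i N hN
    · have : j = 0 ∨ j = 1 := by simp at hj; omega
      rcases this with rfl | rfl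
      · simp at hN
        subst hN
        exact hs1
      · simp at hN
        subst hN
        exact hs2

theorem Good.at_sat {B : List Node} {l : ℕ → W} (h : Good V B l) {i : ℕ} {α : Fml}
    (ha : At B i α) : Sat V α (l i) := by
  obtain ⟨N, hN, rfl⟩ := ha
  exact h.sat i N hN

theorem At.lt {B : List Node} {i : ℕ} {α : Fml} (ha : At B i α) : i < B.length := by
  obtain ⟨N, hN, _⟩ := ha
  exact lt_of_getElem? hN

/-- Traces of old nodes do not change when the branch is extended. -/
theorem inTrace_append {B L : List Node} {n m : ℕ} (hB : WF B) (hn : n < B.length) :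
    InTrace (B ++ L) n m ↔ InTrace B n m ∧ m < B.length := by
  constructor
  · intro h
    induction h with
    | self => exact ⟨.self, hn⟩
    | @input m k N h1 h2 h3 ih =>
      rw [List.getElem?_append_left ih.2] at h2
      have := (hB m N h2).1 k h3
      exact ⟨.input ih.1 h2 h3, by omega⟩
  · rintro ⟨h, -⟩
    induction h with
    | self => exact .self
    | @input m k N h1 h2 h3 ih =>
      refine .input ih ?_ h3
      rw [List.getElem?_append_left (lt_of_getElem? h2)]
      exact h2

theorem inTrace_le {B : List Node} {n m : ℕ} (hB : WF B) (h : InTrace B n m) : m ≤ n := by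
  induction h with
  | self => exact le_rfl
  | @input m k N h1 h2 h3 ih =>
    have := (hB m N h2).1 k h3
    omega

theorem prod_union {s t : Finset ℕ} (l : ℕ → W) :
    ∏ i ∈ s ∪ t, l i = (∏ i ∈ s, l i) * ∏ i ∈ t, l i := by
  classical
  have idem' : ∀ u : Finset ℕ, (∏ i ∈ u, l i) * (∏ i ∈ u, l i) = ∏ i ∈ u, l i :=
    fun u => idem _
  have h1 : ∏ i ∈ s ∪ t, l i = (∏ i ∈ s \ t, l i) * ∏ i ∈ t, l i := by
    rw [← Finset.prod_union Finset.sdiff_disjoint, Finset.sdiff_union_self_eq_union]
  have h2 : ∏ i ∈ s, l i = (∏ i ∈ s \ t, l i) * ∏ i ∈ s ∩ t, l i := by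
    rw [← Finset.prod_union (Finset.disjoint_sdiff_inter s t), Finset.sdiff_union_inter]
  have h3 : ∏ i ∈ t, l i = (∏ i ∈ s ∩ t, l i) * ∏ i ∈ t \ s, l i := by
    rw [mul_comm, Finset.inter_comm, ← Finset.prod_union (Finset.disjoint_sdiff_inter t s),
      Finset.sdiff_union_inter]
  rw [h1, h2]
  conv_lhs => rw [h3]
  conv_rhs => rw [h3]
  calc (∏ i ∈ s \ t, l i) * ((∏ i ∈ s ∩ t, l i) * ∏ i ∈ t \ s, l i)
      = (∏ i ∈ s \ t, l i) * (((∏ i ∈ s ∩ t, l i) * (∏ i ∈ s ∩ t, l i)) * ∏ i ∈ t \ s, l i) := by
        rw [idem']
    _ = _ := by ac_rfl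

/-- Membership in the trace of a set of nodes. -/
def TrS (B : List Node) (U : Finset ℕ) (m : ℕ) : Prop := ∃ u ∈ U, InTrace B u m

/-- Parity of a set of nodes. -/
def Par (B : List Node) (U : Finset ℕ) : Prop :=
  ∀ (c d : ℕ) (N : Node), B[c]? = some N → N.partner = some d → (TrS B U c ↔ TrS B U d)

theorem inTrace_new {B : List Node} {N : Node} {m n : ℕ} (hn : B[n]? = some N) :
    InTrace B n m ↔ m = n ∨ ∃ k ∈ N.inputs, InTrace B k m := by
  constructor
  · intro h
    induction h with
    | self => exact Or.inl rfl
    | @input m k N' h1 h2 h3 ih =>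
      right
      rcases ih with rfl | ⟨k', hk', hk''⟩
      · rw [hn] at h2
        cases h2
        exact ⟨k, h3, .self⟩
      · exact ⟨k', hk', .input hk'' h2 h3⟩
  · rintro (rfl | ⟨k, hk, h⟩)
    · exact .self
    · induction h with
      | self => exact .input .self hn hk
      | @input m' k' N' h1 h2 h3 ih => exact .input ih h2 h3

/-- If a set `U` of nodes of `B ++ L` is replaced by a set `U'` of nodes of `B` in such a way that
the two traces agree on `B`, then parity is inherited. -/
theorem par_of_agree {B L : List Node} {U U' : Finset ℕ} (hB : WF B)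
    (htr : ∀ m, m < B.length → (TrS (B ++ L) U m ↔ TrS B U' m))
    (hpar : Par (B ++ L) U) : Par B U' := by
  intro c d N hc hd
  have hc' : c < B.length := lt_of_getElem? hc
  have hc2 : (B ++ L)[c]? = some N := by
    rw [List.getElem?_append_left hc']; exact hc
  have h1 := hpar c d N hc2 hd
  rw [htr c hc', htr d ((hB c N hc).2 d hd)] at h1
  exact h1

theorem Good.par_le {B : List Node} {l : ℕ → W} (h : Good V B l) :
    ∀ U : Finset ℕ, (∀ u ∈ U, u < B.length) → Par B U → ∏ i ∈ U, l i ≤ 1 := by
  classical
  induction h with
  | @root φ l h1 h2 =>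
    intro U hU _
    have : ∀ i ∈ U, l i = 1 := by
      intro i hi
      have := hU i hi
      have : i = 0 := by simpa using this
      rw [this]; exact h1
    rw [Finset.prod_congr rfl this]
    simp
  | @plain B l l' φ ins hB hl hins hl' hs ih =>
    intro U hU hpar
    have hwf := hB.wf
    have hnew : (B ++ [⟨φ, ins, none⟩])[B.length]? = some (⟨φ, ins, none⟩ : Node) := by
      rw [List.getElem?_append_right le_rfl]; simp
    have hU1 : ∀ u ∈ U, u ≤ B.length := by
      intro u hu
      have := hU u hu
      simp at this
      omega
    by_cases hc : B.length ∈ U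
    · have hU' : ∀ u ∈ (U.erase B.length) ∪ ins.toFinset, u < B.length := by
        intro u hu
        simp only [Finset.mem_union, Finset.mem_erase, List.mem_toFinset] at hu
        rcases hu with ⟨hu1, hu2⟩ | hu
        · have := hU1 u hu2
          omega
        · exact hins u hu
      have htr : ∀ m, m < B.length →
          (TrS (B ++ [⟨φ, ins, none⟩]) U m ↔ TrS B ((U.erase B.length) ∪ ins.toFinset) m) := by
        intro m hm
        constructor
        · rintro ⟨u, hu, hut⟩
          by_cases hub : u = B.length
          · subst hub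
            rw [inTrace_new hnew] at hut
            rcases hut with rfl | ⟨k, hk, hkt⟩
            · omega
            · have hk' : k < B.length := hins k hk
              exact ⟨k, by simp only [Finset.mem_union, List.mem_toFinset]; exact Or.inr hk,
                ((inTrace_append hwf hk').1 hkt).1⟩
          · have hu' : u < B.length := by
              have := hU1 u hu
              omega
            exact ⟨u, by simp only [Finset.mem_union, Finset.mem_erase]; exact Or.inl ⟨hub, hu⟩,
              ((inTrace_append hwf hu').1 hut).1⟩
        · rintro ⟨u, hu, hut⟩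
          have hu' := hU' u hu
          have hut' : InTrace (B ++ [⟨φ, ins, none⟩]) u m := (inTrace_append hwf hu').2 ⟨hut, hm⟩
          simp only [Finset.mem_union, Finset.mem_erase, List.mem_toFinset] at hu
          rcases hu with ⟨hu1, hu2⟩ | hu
          · exact ⟨u, hu2, hut'⟩
          · exact ⟨B.length, hc, (inTrace_new hnew).2 (Or.inr ⟨u, hu, hut'⟩)⟩
      have hprod : ∏ i ∈ U, l' i = ∏ i ∈ (U.erase B.length) ∪ ins.toFinset, l i := by
        rw [prod_union, ← hl', ← Finset.mul_prod_erase U l' hc, mul_comm]
        congr 1
        apply Finset.prod_congr rfl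
        intro i hi
        rw [Finset.mem_erase] at hi
        have := hU1 i hi.2
        exact hl i (by omega)
      rw [hprod]
      exact ih _ hU' (par_of_agree hwf htr hpar)
    · have hU' : ∀ u ∈ U, u < B.length := by
        intro u hu
        have := hU1 u hu
        have hne : u ≠ B.length := fun h => hc (h ▸ hu)
        omega
      have htr : ∀ m, m < B.length → (TrS (B ++ [⟨φ, ins, none⟩]) U m ↔ TrS B U m) := by
        intro m hm
        constructor
        · rintro ⟨u, hu, hut⟩
          exact ⟨u, hu, ((inTrace_append hwf (hU' u hu)).1 hut).1⟩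
        · rintro ⟨u, hu, hut⟩
          exact ⟨u, hu, (inTrace_append hwf (hU' u hu)).2 ⟨hut, hm⟩⟩
      have hprod : ∏ i ∈ U, l' i = ∏ i ∈ U, l i :=
        Finset.prod_congr rfl (fun i hi => hl i (hU' i hi))
      rw [hprod]
      exact ih _ hU' (par_of_agree hwf htr hpar)
  | @crit B l l' φ ψ p hB hl hp hl' hs1 hs2 ih =>
    intro U hU hpar
    have hwf := hB.wf
    set L : List Node := [⟨φ, [p], some (B.length + 1)⟩, ⟨ψ, [p], some B.length⟩] with hL
    have hnew1 : (B ++ L)[B.length]? = some (⟨φ, [p], some (B.length + 1)⟩ : Node) := by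
      rw [List.getElem?_append_right le_rfl]; simp [hL]
    have hnew2 : (B ++ L)[B.length + 1]? = some (⟨ψ, [p], some B.length⟩ : Node) := by
      rw [List.getElem?_append_right (by omega)]; simp [hL]
    have hU1 : ∀ u ∈ U, u ≤ B.length + 1 := by
      intro u hu
      have := hU u hu
      simp [hL] at this
      omega
    -- the trace of a node `≤ length + 1` meets the two new positions only trivially
    have htr1 : ∀ u ≤ B.length + 1, InTrace (B ++ L) u B.length → u = B.length := by
      intro u hu h
      by_cases h1 : u = B.length + 1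
      · subst h1
        rw [inTrace_new hnew2] at h
        rcases h with h | ⟨k, hk, hkt⟩
        · omega
        · simp at hk
          subst hk
          have := ((inTrace_append hwf hp).1 hkt).2
          omega
      · by_contra h2
        have hu' : u < B.length := by omega
        have := ((inTrace_append hwf hu').1 h).2
        omega
    have htr2 : ∀ u ≤ B.length + 1, InTrace (B ++ L) u (B.length + 1) → u = B.length + 1 := by
      intro u hu h
      by_cases h1 : u = B.length
      · subst h1
        rw [inTrace_new hnew1] at h
        rcases h with h | ⟨k, hk, hkt⟩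
        · omega
        · simp at hk
          subst hk
          have := ((inTrace_append hwf hp).1 hkt).2
          omega
      · by_contra h2
        have hu' : u < B.length := by omega
        have := ((inTrace_append hwf hu').1 h).2
        omega
    have hboth : B.length ∈ U ↔ B.length + 1 ∈ U := by
      have h1 := hpar B.length (B.length + 1) _ hnew1 rfl
      constructor
      · intro hm
        obtain ⟨u, hu, hut⟩ := h1.1 ⟨_, hm, .self⟩
        rw [← htr2 u (hU1 u hu) hut]
        exact hu
      · intro hm
        obtain ⟨u, hu, hut⟩ := h1.2 ⟨_, hm, .self⟩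
        rw [← htr1 u (hU1 u hu) hut]
        exact hu
    by_cases hc : B.length ∈ U
    · have hc2 : B.length + 1 ∈ U := hboth.1 hc
      set U' : Finset ℕ := ((U.erase B.length).erase (B.length + 1)) ∪ {p} with hU'def
      have hU' : ∀ u ∈ U', u < B.length := by
        intro u hu
        simp only [hU'def, Finset.mem_union, Finset.mem_erase, Finset.mem_singleton] at hu
        rcases hu with ⟨hu1, hu2, hu3⟩ | hu
        · have := hU1 u hu3
          omega
        · omega
      have htr : ∀ m, m < B.length → (TrS (B ++ L) U m ↔ TrS B U' m) := by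
        intro m hm
        constructor
        · rintro ⟨u, hu, hut⟩
          by_cases hub : u = B.length
          · subst hub
            rw [inTrace_new hnew1] at hut
            rcases hut with rfl | ⟨k, hk, hkt⟩
            · omega
            · simp at hk
              subst hk
              exact ⟨k, by simp [hU'def], ((inTrace_append hwf hp).1 hkt).1⟩
          · by_cases hub2 : u = B.length + 1
            · subst hub2
              rw [inTrace_new hnew2] at hut
              rcases hut with rfl | ⟨k, hk, hkt⟩
              · omega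
              · simp at hk
                subst hk
                exact ⟨k, by simp [hU'def], ((inTrace_append hwf hp).1 hkt).1⟩
            · have hu' : u < B.length := by
                have := hU1 u hu
                omega
              refine ⟨u, ?_, ((inTrace_append hwf hu').1 hut).1⟩
              simp only [hU'def, Finset.mem_union, Finset.mem_erase]
              exact Or.inl ⟨hub2, hub, hu⟩
        · rintro ⟨u, hu, hut⟩
          have hu' := hU' u hu
          have hut' : InTrace (B ++ L) u m := (inTrace_append hwf hu').2 ⟨hut, hm⟩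
          simp only [hU'def, Finset.mem_union, Finset.mem_erase, Finset.mem_singleton] at hu
          rcases hu with ⟨hu1, hu2, hu3⟩ | hu
          · exact ⟨u, hu3, hut'⟩
          · subst hu
            exact ⟨B.length, hc, (inTrace_new hnew1).2 (Or.inr ⟨u, by simp, hut'⟩)⟩
      have hprod : ∏ i ∈ U, l' i ≤ ∏ i ∈ U', l i := by
        rw [hU'def, prod_union, ← Finset.mul_prod_erase U l' hc,
          ← Finset.mul_prod_erase (U.erase B.length) l' (Finset.mem_erase.2 ⟨by omega, hc2⟩),
          ← mul_assoc, mul_comm]
        refine mul_mono' (le_of_eq ?_) ?_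
        · apply Finset.prod_congr rfl
          intro i hi
          simp only [Finset.mem_erase] at hi
          have := hU1 i hi.2.2
          exact hl i (by omega)
        · simpa using hl'
      exact le_trans hprod (ih _ hU' (par_of_agree hwf htr hpar))
    · have hc2 : B.length + 1 ∉ U := fun h => hc (hboth.2 h)
      have hU' : ∀ u ∈ U, u < B.length := by
        intro u hu
        have := hU1 u hu
        have hne : u ≠ B.length := fun h => hc (h ▸ hu)
        have hne2 : u ≠ B.length + 1 := fun h => hc2 (h ▸ hu)
        omega
      have htr : ∀ m, m < B.length → (TrS (B ++ L) U m ↔ TrS B U m) := by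
        intro m hm
        constructor
        · rintro ⟨u, hu, hut⟩
          exact ⟨u, hu, ((inTrace_append hwf (hU' u hu)).1 hut).1⟩
        · rintro ⟨u, hu, hut⟩
          exact ⟨u, hu, (inTrace_append hwf (hU' u hu)).2 ⟨hut, hm⟩⟩
      have hprod : ∏ i ∈ U, l' i = ∏ i ∈ U, l i :=
        Finset.prod_congr rfl (fun i hi => hl i (hU' i hi))
      rw [hprod]
      exact ih _ hU' (par_of_agree hwf htr hpar)

/-- A good branch does not crash with parity. -/
theorem Good.not_crash (hV : ∀ n x y, x ≤ y → V n x → V n y) {B : List Node} {l : ℕ → W}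
    (h : Good V B l) : ¬ CrashesWithParity B := by
  classical
  rintro ⟨i, j, ζ, hi, hj, hp⟩
  have h1 : ∏ k ∈ ({i, j} : Finset ℕ), l k ≤ 1 := by
    refine h.par_le _ ?_ ?_
    · intro u hu
      simp only [Finset.mem_insert, Finset.mem_singleton] at hu
      rcases hu with rfl | rfl
      · exact At.lt hi
      · exact At.lt hj
    · intro c d N hc hd
      have := hp c d N hc hd
      simpa [TrS] using this
  have hsi := h.at_sat hi
  have hsj := h.at_sat hj
  have h2 : l i * l j ≤ 1 := by
    by_cases hij : i = j
    · subst hij
      simp at h1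
      rw [idem]; exact h1
    · rw [Finset.prod_pair hij] at h1
      exact h1
  rw [mul_le_one] at h2
  exact hsj (Sat.mono hV ζ h2 hsi)

theorem Good.add {B : List Node} {l : ℕ → W} (h : Good V B l) {φ : Fml} {ins : List ℕ}
    (hins : ∀ i ∈ ins, i < B.length) (hs : Sat V φ (∏ i ∈ ins.toFinset, l i)) :
    ∃ l', (∀ i < B.length, l' i = l i) ∧ Good V (B ++ [⟨φ, ins, none⟩]) l' := by
  refine ⟨Function.update l B.length (∏ i ∈ ins.toFinset, l i), ?_, ?_⟩
  · intro i hi
    rw [Function.update_of_ne (by omega)]
  · refine Good.plain h ?_ hins ?_ ?_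
    · intro i hi
      rw [Function.update_of_ne (by omega)]
    · rw [Function.update_self]
    · rw [Function.update_self]; exact hs

theorem Good.add1 {B : List Node} {l : ℕ → W} (h : Good V B l) {φ : Fml} {i : ℕ}
    (hi : i < B.length) (hs : Sat V φ (l i)) :
    ∃ l', (∀ i < B.length, l' i = l i) ∧ Good V (B ++ [⟨φ, [i], none⟩]) l' := by
  refine h.add (by simpa using hi) ?_
  simpa using hs

theorem closes_false (hV : ∀ n x y, x ≤ y → V n x → V n y) {B : List Node}
    (hc : Closes (fun φ => Sat V φ 1) B) : ∀ l : ℕ → W, ¬ Good V B l := by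
  classical
  induction hc with
  | crash h => exact fun l hl => hl.not_crash hV h
  | @step B alts hr hc ih =>
    intro l hl
    cases hr with
    | @dneg i α h =>
      have hs := hl.at_sat h
      have hs' : Sat V α (l i) := by
        have : ¬ ¬ Sat V α (star (star (l i))) := hs
        rw [star_star] at this
        exact not_not.1 this
      obtain ⟨l', _, hl'⟩ := hl.add1 (At.lt h) hs'
      exact ih _ (by simp) l' hl'
    | @conj i α β h =>
      have hs := hl.at_sat h
      obtain ⟨l', hll', hl'⟩ := hl.add1 (At.lt h) hs.1
      obtain ⟨l'', _, hl''⟩ := hl'.add1 (φ := β) (i := i)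
        (by have := At.lt h; simp; omega) (by rw [hll' i (At.lt h)]; exact hs.2)
      rw [List.append_assoc] at hl''
      exact ih _ (by simp) l'' hl''
    | @negDisj i α β h =>
      have hs := hl.at_sat h
      have hs1 : Sat V (.neg α) (l i) := fun h' => hs (Or.inl h')
      have hs2 : Sat V (.neg β) (l i) := fun h' => hs (Or.inr h')
      obtain ⟨l', hll', hl'⟩ := hl.add1 (At.lt h) hs1
      obtain ⟨l'', _, hl''⟩ := hl'.add1 (φ := .neg β) (i := i)
        (by have := At.lt h; simp; omega) (by rw [hll' i (At.lt h)]; exact hs2)
      rw [List.append_assoc] at hl''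
      exact ih _ (by simp) l'' hl''
    | @disj i α β h =>
      rcases hl.at_sat h with hs | hs
      · obtain ⟨l', _, hl'⟩ := hl.add1 (At.lt h) hs
        exact ih _ (by simp) l' hl'
      · obtain ⟨l', _, hl'⟩ := hl.add1 (At.lt h) hs
        exact ih _ (by simp) l' hl'
    | @negConj i α β h =>
      have hs := hl.at_sat h
      have hs' : Sat V (.neg α) (l i) ∨ Sat V (.neg β) (l i) := by
        by_contra hcon
        push Not at hcon
        apply hs
        exact ⟨not_not.1 hcon.1, not_not.1 hcon.2⟩
      rcases hs' with hs' | hs'
      · obtain ⟨l', _, hl'⟩ := hl.add1 (At.lt h) hs'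
        exact ih _ (by simp) l' hl'
      · obtain ⟨l', _, hl'⟩ := hl.add1 (At.lt h) hs'
        exact ih _ (by simp) l' hl'
    | @counterCase i α β h =>
      have hs := hl.at_sat h
      have hs' : ∃ a, Sat V α a ∧ ¬ Sat V β (star (l i) * a) := by
        by_contra hcon
        push Not at hcon
        exact hs hcon
      obtain ⟨a, ha, hb⟩ := hs'
      have hb' : Sat V (.neg β) (star (star (l i) * a)) := by
        intro h'
        rw [star_star] at h'
        exact hb h'
      have hle : a * star (star (l i) * a) ≤ l i := by
        rw [le_iff]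
        have := mul_star_le (star (l i) * a)
        calc a * star (star (l i) * a) * star (l i)
            = (star (l i) * a) * star (star (l i) * a) := by ac_rfl
          _ ≤ 1 := this
      let l' : ℕ → W := fun k =>
        if k < B.length then l k else if k = B.length then a else star (star (l i) * a)
      have hl'1 : l' B.length = a := by simp [l']
      have hl'2 : l' (B.length + 1) = star (star (l i) * a) := by simp [l']
      refine ih _ (by simp) l' (Good.crit (φ := α) (ψ := .neg β) (p := i) hl ?_ (At.lt h) ?_ ?_ ?_)
      · intro k hk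
        simp [l', hk]
      · rw [hl'1, hl'2]; exact hle
      · rw [hl'1]; exact ha
      · rw [hl'2]; exact hb'
    | @modusPonens i j α β h1 h2 =>
      have hs1 := hl.at_sat h1
      have hs2 := hl.at_sat h2
      have hs : Sat V β (l j * l i) := hs2 _ hs1
      have hs' : Sat V β (∏ k ∈ ([i, j] : List ℕ).toFinset, l k) := by
        by_cases hij : i = j
        · subst hij
          simp only [List.toFinset_cons, List.toFinset_nil, insert_empty_eq,
            Finset.mem_singleton, Finset.insert_eq_of_mem, Finset.prod_singleton]
          rw [idem] at hs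
          exact hs
        · have : ([i, j] : List ℕ).toFinset = {i, j} := by simp
          rw [this, Finset.prod_pair hij, mul_comm]
          exact hs
      obtain ⟨l', _, hl'⟩ := hl.add (ins := [i, j]) (by
        intro k hk
        simp at hk
        rcases hk with rfl | rfl
        · exact At.lt h1
        · exact At.lt h2) hs'
      exact ih _ (by simp) l' hl'
    | @recursive i α β h hS =>
      have hs := hl.at_sat h
      have hs' : Sat V β (l i) := by
        have := hS (l i) hs
        rwa [one_mul] at this
      obtain ⟨l', _, hl'⟩ := hl.add1 (At.lt h) hs'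
      exact ih _ (by simp) l' hl'

/-- Acceptable formulae are valid in every frame. -/
theorem acceptable_valid (hV : ∀ n x y, x ≤ y → V n x → V n y) {φ : Fml}
    (h : Acceptable φ) : Sat V φ 1 := by
  refine h (fun φ => Sat V φ 1) ?_
  intro ψ hψ
  by_contra hcon
  refine closes_false hV hψ (fun _ => 1) (Good.root rfl ?_)
  show ¬ Sat V ψ (star 1)
  rw [star_one]
  exact hcon

end IFrame

end Pool.Agent.Work.MP_e8d052_lc
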