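import Pool.Agent.Work.MP_e8d052_lc.Prover

/-!
# The closed truth-tree built along a halting run
-/

set_option linter.unusedVariables false

namespace Pool.Agent.Work.MP_e8d052_lc

abbrev St := Set (Fml × Finset ℕ)

theorem par_union {a b : Finset ℕ} (ha : par a) (hb : par b) : par (a ∪ b) := by
  intro k
  simp only [Finset.mem_union, ha k, hb k]

/-- `PP a`: the label becomes parity-closed once the critical node `0` is added. -/
def PP (a : Finset ℕ) : Prop := par (insert 0 a)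

theorem PP.par {a b : Finset ℕ} (h : PP a) (hb : b = insert 0 a) : par b := hb ▸ h

/-- Conjuncts can be extracted. -/
theorem LC.extract {ψ Θ : Fml} (hc : Conj ψ Θ) : ∀ {n : ℕ} {Γ : St} {a : Finset ℕ},
    (Θ, a) ∈ Γ → (∀ Γ' : St, Γ ⊆ Γ' → (ψ, a) ∈ Γ' → LC n Γ') → LC n Γ := by
  induction hc with
  | self => intro n Γ a h k; exact k Γ (Set.Subset.refl _) h
  | @left b c _ ih =>
    intro n Γ a h k
    refine LC.conj h (ih (a := a) (by simp) ?_)
    intro Γ' h1 h2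
    exact k Γ' (fun x hx => h1 (by simp [hx])) h2
  | @right b c _ ih =>
    intro n Γ a h k
    refine LC.conj h (ih (a := a) (by simp) ?_)
    intro Γ' h1 h2
    exact k Γ' (fun x hx => h1 (by simp [hx])) h2

/-- Use of a two-premise implication at the label `{0}`. -/
theorem LC.mp2 {α β γ Θ : Fml} (hc : Conj (.imp α (.imp β γ)) Θ) {n : ℕ} {Γ : St}
    {a b : Finset ℕ} (hΘ : (Θ, {0}) ∈ Γ) (ha : (α, a) ∈ Γ) (hb : (β, b) ∈ Γ)
    (k : ∀ Γ' : St, Γ ⊆ Γ' → (γ, b ∪ (a ∪ {0})) ∈ Γ' → LC n Γ') : LC n Γ := by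
  refine LC.extract hc hΘ ?_
  intro Γ1 h1 h2
  refine LC.mp (h1 ha) h2 ?_
  refine LC.mp (a := b) (b := a ∪ {0}) (α := β) (β := γ) ?_ ?_ ?_
  · exact Set.mem_insert_of_mem _ (h1 hb)
  · exact Set.mem_insert _ _
  · exact k _ (fun x hx => Set.mem_insert_of_mem _ (Set.mem_insert_of_mem _ (h1 hx)))
      (Set.mem_insert _ _)

theorem LC.mp1 {α β Θ : Fml} (hc : Conj (.imp α β) Θ) {n : ℕ} {Γ : St}
    {a : Finset ℕ} (hΘ : (Θ, {0}) ∈ Γ) (ha : (α, a) ∈ Γ)
    (k : ∀ Γ' : St, Γ ⊆ Γ' → (β, a ∪ {0}) ∈ Γ' → LC n Γ') : LC n Γ := by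
  refine LC.extract hc hΘ ?_
  intro Γ1 h1 h2
  refine LC.mp (h1 ha) h2 ?_
  exact k _ (fun x hx => Set.mem_insert_of_mem _ (h1 hx)) (Set.mem_insert _ _)

/-- Fusion generates a new critical pair. -/
theorem LC.fusion {α β : Fml} {n : ℕ} {Γ : St} {a : Finset ℕ} (h : (fus α β, a) ∈ Γ)
    (k : ∀ Γ' : St, Γ ⊆ Γ' → (α, insert (2 * n) a) ∈ Γ' → (β, insert (2 * n + 1) a) ∈ Γ' →
      LC (n + 1) Γ') : LC n Γ := by
  refine LC.counter h ?_
  refine LC.dneg (Set.mem_insert _ _) ?_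
  refine k _ ?_ ?_ ?_
  · intro x hx
    simp [hx]
  · simp
  · simp

/-- The record of a stack: for each of its suffixes a letter `A` with a label, for each of its
symbols a link. -/
inductive Stk (s : Bool) (Γ : St) : List ℕ → Finset ℕ → Prop
  | nil {x y : Finset ℕ} : (v (.A s 3), x) ∈ Γ → (v (.D s), y) ∈ Γ → PP (x ∪ y) → Stk s Γ [] x
  | cons {w : List ℕ} {g : ℕ} {x x' e : Finset ℕ} : Stk s Γ w x →
      (v (.A s (cls (w.length + 1))), x') ∈ Γ → (v (.G s (cls w.length) g), e) ∈ Γ →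
      PP (x ∪ x' ∪ e) → Stk s Γ (g :: w) x'

theorem Stk.mono {s : Bool} {Γ Γ' : St} (h : Γ ⊆ Γ') {w : List ℕ} {x : Finset ℕ}
    (hs : Stk s Γ w x) : Stk s Γ' w x := by
  induction hs with
  | nil h1 h2 h3 => exact .nil (h h1) (h h2) h3
  | cons _ h1 h2 h3 ih => exact .cons ih (h h1) (h h2) h3

theorem Stk.mem {s : Bool} {Γ : St} {w : List ℕ} {x : Finset ℕ} (hs : Stk s Γ w x) :
    (v (.A s (cls w.length)), x) ∈ Γ := by
  cases hs with
  | nil h1 h2 h3 => exact h1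
  | cons _ h1 h2 h3 => exact h1

/-- What the conjunction `Θ` must contain. -/
structure Full (R : List SRule) (q0 K : ℕ) (Θ : Fml) : Prop where
  start : Conj (pStart q0) Θ
  pos : ∀ r ∈ R, r.q' ≠ 0 → ∀ c < 4, ∀ d < 4, Conj (pPos r.q' c d) Θ
  halt : ∀ c < 4, ∀ d < 4, Conj (pHalt c d) Θ
  rule : ∀ r ∈ R, ∀ c < 4, ∀ d < 4, Conj (pRule r c d) Θ
  gen0 : ∀ s, ∀ d < K, Conj (pGen0 s d) Θ
  gen : ∀ s, ∀ c < 4, ∀ g < K, ∀ d < K, Conj (pGen s c g d) Θ
  esc : ∀ s, ∀ c < 4, Conj (pEsc s c) Θ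

variable {R : List SRule} {q0 K : ℕ} {Θ : Fml}

theorem PP.insert_pair {a : Finset ℕ} (h : PP a) (n : ℕ) {b : Finset ℕ}
    (hb : ∀ j, j ∈ insert 0 b ↔ j ∈ insert 0 a ∨ j = 2 * n ∨ j = 2 * n + 1) : PP b := by
  intro k
  rw [hb, hb, h k]
  constructor
  · rintro (h1 | h1 | h1)
    · exact Or.inl h1
    · right; right; omega
    · omega
  · rintro (h1 | h1 | h1)
    · exact Or.inl h1
    · omega
    · right; left; omega

/-- Pushing a symbol. -/
theorem LC.push (hF : Full R q0 K Θ) {s : Bool} {n : ℕ} {Γ : St} {w : List ℕ} {x : Finset ℕ}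
    (hΘ : (Θ, {0}) ∈ Γ) (hw : Stk s Γ w x) (hK : ∀ g ∈ w, g < K) {d : ℕ} (hd : d < K)
    (k : ∀ Γ' : St, Γ ⊆ Γ' → ∀ x' e : Finset ℕ, Stk s Γ' (d :: w) x' →
      (v (.G s (cls w.length) d), e) ∈ Γ' → PP (x ∪ x' ∪ e) → LC (n + 1) Γ') : LC n Γ := by
  cases hw with
  | @nil _ y h1 h2 h3 =>
    refine LC.mp1 (hF.gen0 s d hd) hΘ h2 ?_
    intro Γ1 g1 g2
    refine LC.fusion g2 ?_
    intro Γ2 g3 g4 g5
    have hPP : PP (x ∪ insert (2 * n) (y ∪ {0}) ∪ insert (2 * n + 1) (y ∪ {0})) := by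
      refine h3.insert_pair n ?_
      intro j
      simp only [Finset.mem_insert, Finset.mem_union, Finset.mem_singleton]
      tauto
    refine k Γ2 (fun z hz => g3 (g1 hz)) (insert (2 * n) (y ∪ {0}))
      (insert (2 * n + 1) (y ∪ {0})) ?_ g5 hPP
    refine .cons (.nil (g3 (g1 h1)) (g3 (g1 h2)) h3) g4 g5 hPP
  | @cons w g x0 _ e0 h0 h1 h2 h3 =>
    have hg : g < K := hK g (by simp)
    refine LC.mp2 (hF.gen s (cls w.length) (cls_lt _) g hg d hd) hΘ h0.mem h2 ?_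
    intro Γ1 g1 g2
    refine LC.disj g2 ?_ ?_
    · refine LC.fusion (Set.mem_insert _ _) ?_
      intro Γ2 g3 g4 g5
      have hsub : Γ ⊆ Γ2 := fun z hz => g3 (Set.mem_insert_of_mem _ (g1 hz))
      have hPP : PP (x ∪ insert (2 * n) (e0 ∪ (x0 ∪ {0})) ∪
          insert (2 * n + 1) (e0 ∪ (x0 ∪ {0}))) := by
        refine h3.insert_pair n ?_
        intro j
        simp only [Finset.mem_insert, Finset.mem_union, Finset.mem_singleton]
        tauto
      have g4' : (v (.A s (cls ((g :: w).length + 1))), insert (2 * n) (e0 ∪ (x0 ∪ {0}))) ∈ Γ2 := by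
        rw [List.length_cons, cls_succ, cls_succ]; exact g4
      have g5' : (v (.G s (cls (g :: w).length) d), insert (2 * n + 1) (e0 ∪ (x0 ∪ {0}))) ∈ Γ2 := by
        rw [List.length_cons, cls_succ]; exact g5
      refine k Γ2 hsub (insert (2 * n) (e0 ∪ (x0 ∪ {0})))
        (insert (2 * n + 1) (e0 ∪ (x0 ∪ {0}))) ?_ g5' hPP
      exact .cons ((Stk.cons h0 h1 h2 h3).mono hsub) g4' g5' hPP
    · -- the escape letter is refuted at the label of the current top
      refine LC.mp1 (hF.esc s (cls (w.length + 1)) (cls_lt _)) (Set.mem_insert_of_mem _ (g1 hΘ))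
        (Set.mem_insert_of_mem _ (g1 h1)) ?_
      intro Γ2 g3 g4
      refine LC.crash (g3 (Set.mem_insert _ _)) g4 (h3.par ?_)
      ext j
      simp only [Finset.mem_insert, Finset.mem_union, Finset.mem_singleton]
      tauto

/-- A move on one stack. -/
theorem LC.move (hF : Full R q0 K Θ) {s : Bool} {n : ℕ} {Γ : St} {w : List ℕ} {x : Finset ℕ}
    (hΘ : (Θ, {0}) ∈ Γ) (hw : Stk s Γ w x) (hK : ∀ g ∈ w, g < K) {p : Bool} {d : ℕ} (hd : d < K)
    {w' : List ℕ} (hm : Mv p d w w')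
    (k : ∀ Γ' : St, Γ ⊆ Γ' → ∀ (m c : ℕ) (x' e : Finset ℕ), c < 4 → Stk s Γ' w' x' →
      (∀ g ∈ w', g < K) → (v (.G s c d), e) ∈ Γ' →
      cls w.length = lo p c → cls w'.length = hi p c → PP (x ∪ x' ∪ e) → LC m Γ') : LC n Γ := by
  rcases hm with ⟨rfl, rfl⟩ | ⟨rfl, rfl⟩
  · refine LC.push hF hΘ hw hK hd ?_
    intro Γ' h1 x' e h2 h3 h4
    refine k Γ' h1 _ (cls w.length) x' e (cls_lt _) h2 ?_ h3 rfl ?_ h4
    · intro g hg
      simp at hg
      rcases hg with rfl | hg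
      · exact hd
      · exact hK g hg
    · simp [hi, cls_succ]
  · cases hw with
    | @cons _ _ x0 _ e0 h0 h1 h2 h3 =>
      refine k Γ (Set.Subset.refl _) _ (cls w'.length) x0 e0 (cls_lt _) h0 ?_ h2 ?_ ?_ ?_
      · intro g hg
        exact hK g (by simp [hg])
      · simp [lo, cls_succ]
      · simp [hi]
      · rw [Finset.union_comm x x0]; exact h3

/-- The halting state `0` can be reached from the given configuration. -/
inductive Halts (R : List SRule) : ℕ → List ℕ → List ℕ → Prop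
  | base (u w : List ℕ) : Halts R 0 u w
  | step {q : ℕ} {u w u' w' : List ℕ} {r : SRule} : r ∈ R → r.q = q →
      Mv r.p1 r.g u u' → Mv r.p2 r.d w w' → Halts R r.q' u' w' → Halts R q u w

theorem Reach.halts {q : ℕ} {u w : List ℕ} (h : Reach R q0 q u w) (hh : Halts R q u w) :
    Halts R q0 [] [] := by
  induction h with
  | start => exact hh
  | step _ h2 h3 h4 h5 ih => exact ih (.step h2 h3 h4 h5 hh)

/-- The main induction along the halting run. -/
theorem LC.run (hF : Full R q0 K Θ) (hR : ∀ r ∈ R, r.g < K ∧ r.d < K)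
    {q : ℕ} {u w : List ℕ} (hh : Halts R q u w) :
    q ≠ 0 → ∀ {n : ℕ} {Γ : St} {x y : Finset ℕ}, (Θ, {0}) ∈ Γ → Stk false Γ u x →
      Stk true Γ w y → (∀ g ∈ u, g < K) → (∀ g ∈ w, g < K) →
      (v (.T q (cls u.length) (cls w.length)), y ∪ (x ∪ {0})) ∈ Γ → LC n Γ := by
  induction hh with
  | base u w => intro h; exact absurd rfl h
  | @step q u w u' w' r hr hq m1 m2 hh ih =>
    intro hq0 n Γ x y hΘ hu hw hKu hKw hT
    refine LC.move hF hΘ hu hKu (hR r hr).1 m1 ?_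
    intro Γ1 s1 n1 c x' e hc hu' hKu' hG hlo hhi hPP
    refine LC.move hF (s1 hΘ) (hw.mono s1) hKw (hR r hr).2 m2 ?_
    intro Γ2 s2 n2 d y' e' hd hw' hKw' hG' hlo' hhi' hPP'
    -- use the rule
    refine LC.extract (hF.rule r hr c hc d hd) (s2 (s1 hΘ)) ?_
    intro Γ3 s3 hrule
    refine LC.mp (s3 (s2 hG)) hrule ?_
    refine LC.mp (Set.mem_insert_of_mem _ (s3 hG')) (Set.mem_insert _ _) ?_
    have hT' : (v (.T r.q (lo r.p1 c) (lo r.p2 d)), y ∪ (x ∪ {0})) ∈ Γ3 := by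
      rw [hq, ← hlo, ← hlo']
      exact s3 (s2 (s1 hT))
    refine LC.mp (Set.mem_insert_of_mem _ (Set.mem_insert_of_mem _ hT')) (Set.mem_insert _ _) ?_
    set Γ4 : St := insert (.neg (v (.N r.q' (hi r.p1 c) (hi r.p2 d))),
      (y ∪ (x ∪ {0})) ∪ (e' ∪ (e ∪ {0}))) (insert (.imp (v (.T r.q (lo r.p1 c) (lo r.p2 d)))
      (.neg (v (.N r.q' (hi r.p1 c) (hi r.p2 d)))), e' ∪ (e ∪ {0}))
      (insert (.imp (v (.G true d r.d)) (.imp (v (.T r.q (lo r.p1 c) (lo r.p2 d)))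
      (.neg (v (.N r.q' (hi r.p1 c) (hi r.p2 d))))), e ∪ {0}) Γ3)) with hΓ4
    have s4 : Γ3 ⊆ Γ4 := fun z hz => Set.mem_insert_of_mem _ (Set.mem_insert_of_mem _
      (Set.mem_insert_of_mem _ hz))
    have hN : (.neg (v (.N r.q' (hi r.p1 c) (hi r.p2 d))),
      (y ∪ (x ∪ {0})) ∪ (e' ∪ (e ∪ {0}))) ∈ Γ4 := Set.mem_insert _ _
    have hu4 : Stk false Γ4 u' x' := hu'.mono (fun z hz => s4 (s3 (s2 hz)))
    have hw4 : Stk true Γ4 w' y' := hw'.mono (fun z hz => s4 (s3 hz))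
    have hΘ4 : (Θ, {0}) ∈ Γ4 := s4 (s3 (s2 (s1 hΘ)))
    have hcr : par ((y' ∪ (x' ∪ {0})) ∪ ((y ∪ (x ∪ {0})) ∪ (e' ∪ (e ∪ {0})))) := by
      have h1 : par (insert 0 (x ∪ x' ∪ e) ∪ insert 0 (y ∪ y' ∪ e')) :=
        par_union hPP hPP'
      have h2 : (y' ∪ (x' ∪ {0})) ∪ ((y ∪ (x ∪ {0})) ∪ (e' ∪ (e ∪ {0}))) =
          insert 0 (x ∪ x' ∪ e) ∪ insert 0 (y ∪ y' ∪ e') := by
        ext j
        simp only [Finset.mem_insert, Finset.mem_union, Finset.mem_singleton]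
        tauto
      rw [h2]; exact h1
    by_cases h0 : r.q' = 0
    · refine LC.mp2 (hF.halt (cls u'.length) (cls_lt _) (cls w'.length) (cls_lt _)) hΘ4
        hu4.mem hw4.mem ?_
      intro Γ5 s5 h5
      refine LC.crash (ζ := v (.N 0 (cls u'.length) (cls w'.length))) h5 ?_ hcr
      rw [hhi, hhi']
      have hN' := s5 hN
      rw [h0] at hN'
      exact hN'
    · refine LC.mp2 (hF.pos r hr h0 (cls u'.length) (cls_lt _) (cls w'.length) (cls_lt _)) hΘ4
        hu4.mem hw4.mem ?_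
      intro Γ5 s5 h5
      refine LC.disj h5 ?_ ?_
      · refine ih h0 (Set.mem_insert_of_mem _ (s5 hΘ4))
          (hu4.mono (fun z hz => Set.mem_insert_of_mem _ (s5 hz)))
          (hw4.mono (fun z hz => Set.mem_insert_of_mem _ (s5 hz))) hKu' hKw'
          (Set.mem_insert _ _)
      · refine LC.crash (ζ := v (.N r.q' (cls u'.length) (cls w'.length)))
          (Set.mem_insert _ _) ?_ hcr
        rw [hhi, hhi']
        exact Set.mem_insert_of_mem _ (s5 hN)

/-- If the halting state is reachable, then the formula has a closed truth-tree. -/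
theorem treeFor_of_halts {S : Fml → Prop} (hF : Full R q0 K Θ) (hR : ∀ r ∈ R, r.g < K ∧ r.d < K)
    (hq0 : q0 ≠ 0) (hh : Halts R q0 [] []) : TreeFor S (.imp Θ chi) := by
  refine LC.treeFor ?_
  refine LC.counter (n := 0) (a := ∅) (α := Θ) (β := chi) rfl ?_
  refine LC.negDisj (Set.mem_insert _ _) ?_
  -- side `false`
  refine LC.counter (Set.mem_insert_of_mem _ (Set.mem_insert _ _)) ?_
  refine LC.dneg (Set.mem_insert _ _) ?_
  -- side `true`
  refine LC.counter (α := v (.A true 3)) (β := .neg (v (.D true))) (a := {1}) ?_ ?_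
  · simp
  refine LC.dneg (Set.mem_insert _ _) ?_
  set Γ : St := insert (v (.D true), insert (2 * (0 + 1 + 1) + 1) {1}) _ with hΓ
  have hΘ : (Θ, ({0} : Finset ℕ)) ∈ Γ := by simp [hΓ]
  have hu : Stk false Γ [] {1, 2} := by
    refine .nil (y := {1, 3}) ?_ ?_ ?_
    · simp only [hΓ, Set.mem_insert_iff, Prod.mk.injEq]
      right; right; right; right; right; left
      exact ⟨by trivial, by decide⟩
    · simp only [hΓ, Set.mem_insert_iff, Prod.mk.injEq]
      right; right; right; left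
      exact ⟨by trivial, by decide⟩
    · intro k
      simp only [Finset.mem_insert, Finset.mem_union, Finset.mem_singleton]
      omega
  have hw : Stk true Γ [] {1, 4} := by
    refine .nil (y := {1, 5}) ?_ ?_ ?_
    · simp only [hΓ, Set.mem_insert_iff, Prod.mk.injEq]
      right; right; left
      exact ⟨by trivial, by decide⟩
    · simp only [hΓ, Set.mem_insert_iff, Prod.mk.injEq]
      left
      exact ⟨by trivial, by decide⟩
    · intro k
      simp only [Finset.mem_insert, Finset.mem_union, Finset.mem_singleton]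
      omega
  refine LC.mp2 hF.start hΘ hu.mem hw.mem ?_
  intro Γ1 s1 h1
  exact LC.run hF hR hh hq0 (s1 hΘ) (hu.mono s1) (hw.mono s1) (by simp) (by simp) h1

theorem acceptable_of_halts (hF : Full R q0 K Θ) (hR : ∀ r ∈ R, r.g < K ∧ r.d < K)
    (hq0 : q0 ≠ 0) (hh : Halts R q0 [] []) : Acceptable (.imp Θ chi) :=
  fun S hS => hS _ (treeFor_of_halts hF hR hq0 hh)

end Pool.Agent.Work.MP_e8d052_lc
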