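import Pool.Agent.Work.MP_e8d052_lc.Strategy
import Pool.Agent.Work.MP_e8d052_lc.Machine

/-!
# Two-stack systems simulating a Turing machine
-/

set_option linter.unusedVariables false
set_option linter.unusedSectionVars false

namespace Pool.Agent.Work.MP_e8d052_lc

open Turing

section TwoStack

variable {Γ Λ : Type} [Inhabited Γ] [Fintype Γ] [Inhabited Λ]

/-- The number of a symbol. -/
noncomputable def sy (a : Γ) : ℕ := (Fintype.equivFin Γ a).val

theorem sy_inj {a b : Γ} (h : sy a = sy b) : a = b :=
  (Fintype.equivFin Γ).injective (Fin.ext h)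

theorem sy_lt (a : Γ) : sy a < Fintype.card Γ := (Fintype.equivFin Γ a).isLt

theorem map_sy_inj {U V : List Γ} (h : U.map sy = V.map sy) : U = V :=
  List.map_injective_iff.2 (fun _ _ h => sy_inj h) h

open Classical in
/-- The number of a state. -/
noncomputable def sn (S : Finset Λ) (q : Λ) : ℕ := S.toList.idxOf q

theorem sn_inj {S : Finset Λ} {q p : Λ} (hq : q ∈ S) (h : sn S q = sn S p) : q = p := by
  classical
  unfold sn at h
  have := (List.idxOf_inj (l := S.toList) (x := q) (y := p) (Finset.mem_toList.2 hq)).1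
  apply this
  convert h

/-- The number of the state `q` reading the symbol `a`. -/
noncomputable def cq (S : Finset Λ) (q : Λ) (a : Γ) : ℕ := 3 * Nat.pair (sn S q) (sy a) + 2

/-- The number of the auxiliary state used for writing. -/
noncomputable def cw (S : Finset Λ) (q : Λ) (a : Γ) : ℕ := 3 * Nat.pair (sn S q) (sy a) + 3

/-- The number of an initialisation state. -/
def ci (k : ℕ) : ℕ := 3 * k + 1

variable (M : TM0.Machine Γ Λ) (S : Finset Λ)

/-- The rules simulating the machine. -/
inductive FixedRule : SRule → Prop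
  | halt (q : Λ) (a : Γ) : q ∈ S → M q a = none → FixedRule ⟨cq S q a, true, 0, true, 0, 0⟩
  | right (q : Λ) (a : Γ) (q' : Λ) (r : Γ) : q ∈ S → M q a = some (q', .move .right) →
      FixedRule ⟨cq S q a, true, sy a, false, sy r, cq S q' r⟩
  | left (q : Λ) (a : Γ) (q' : Λ) (r : Γ) : q ∈ S → M q a = some (q', .move .left) →
      FixedRule ⟨cq S q a, false, sy r, true, sy a, cq S q' r⟩
  | write (q : Λ) (a : Γ) (q' : Λ) (b : Γ) : q ∈ S → M q a = some (q', .write b) →
      FixedRule ⟨cq S q a, true, 0, true, 0, cw S q' b⟩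
  | write' (q : Λ) (a : Γ) (q' : Λ) (b : Γ) : q ∈ S → M q a = some (q', .write b) →
      FixedRule ⟨cw S q' b, false, 0, false, 0, cq S q' b⟩

/-- The list of the rules at a given state and symbol. -/
noncomputable def ruleList (q : Λ) (a : Γ) : List SRule :=
  match M q a with
  | none => [⟨cq S q a, true, 0, true, 0, 0⟩]
  | some (q', .move .right) => (Finset.univ : Finset Γ).toList.map fun r =>
      ⟨cq S q a, true, sy a, false, sy r, cq S q' r⟩
  | some (q', .move .left) => (Finset.univ : Finset Γ).toList.map fun r =>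
      ⟨cq S q a, false, sy r, true, sy a, cq S q' r⟩
  | some (q', .write b) => [⟨cq S q a, true, 0, true, 0, cw S q' b⟩,
      ⟨cw S q' b, false, 0, false, 0, cq S q' b⟩]

/-- The list of all the rules simulating the machine. -/
noncomputable def fixedList : List SRule :=
  S.toList.flatMap fun q => (Finset.univ : Finset Γ).toList.flatMap fun a => ruleList M S q a

theorem mem_fixedList {r : SRule} : r ∈ fixedList M S ↔ FixedRule M S r := by
  unfold fixedList
  simp only [List.mem_flatMap, Finset.mem_toList, Finset.mem_univ, true_and]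
  constructor
  · rintro ⟨q, hq, a, h⟩
    unfold ruleList at h
    rcases hM : M q a with _ | ⟨q', (d | b)⟩
    · simp only [hM, List.mem_singleton] at h
      subst h
      exact .halt q a hq hM
    · cases d
      · simp only [hM, List.mem_map, Finset.mem_toList, Finset.mem_univ, true_and] at h
        obtain ⟨r', rfl⟩ := h
        exact .left q a q' r' hq hM
      · simp only [hM, List.mem_map, Finset.mem_toList, Finset.mem_univ, true_and] at h
        obtain ⟨r', rfl⟩ := h
        exact .right q a q' r' hq hM
    · simp only [hM, List.mem_cons, List.not_mem_nil, or_false] at h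
      rcases h with rfl | rfl
      · exact .write q a q' b hq hM
      · exact .write' q a q' b hq hM
  · intro h
    cases h with
    | halt q a hq hM => exact ⟨q, hq, a, by simp [ruleList, hM]⟩
    | right q a q' r hq hM =>
      exact ⟨q, hq, a, by simp only [ruleList, hM, List.mem_map]; exact ⟨r, by simp, rfl⟩⟩
    | left q a q' r hq hM =>
      exact ⟨q, hq, a, by simp only [ruleList, hM, List.mem_map]; exact ⟨r, by simp, rfl⟩⟩
    | write q a q' b hq hM => exact ⟨q, hq, a, by simp [ruleList, hM]⟩
    | write' q a q' b hq hM => exact ⟨q, hq, a, by simp [ruleList, hM]⟩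

/-- The first initialisation rule: pad both stacks with blanks. -/
noncomputable def ruleI (Γ : Type) [Inhabited Γ] [Fintype Γ] : SRule :=
  ⟨ci 0, true, sy (default : Γ), true, sy (default : Γ), ci 0⟩

/-- Initialisation rules of the `i`-th block. -/
noncomputable def ruleA (y : Γ) (i : ℕ) : SRule :=
  ⟨ci (2 * i), true, sy (default : Γ), true, sy y, ci (2 * i + 1)⟩

noncomputable def ruleB (w : Γ) (i : ℕ) : SRule :=
  ⟨ci (2 * i + 1), true, sy (default : Γ), true, sy w, ci (2 * (i + 1))⟩

/-- The last initialisation rule. -/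
noncomputable def ruleC (x y : Γ) (n : ℕ) : SRule :=
  ⟨ci (2 * n), true, sy (default : Γ), true, sy y, cq S default x⟩

/-- All the rules. -/
inductive IsRule (x y w : Γ) (n : ℕ) : SRule → Prop
  | fixed (r : SRule) : FixedRule M S r → IsRule x y w n r
  | I : IsRule x y w n (ruleI Γ)
  | A (i : ℕ) : i < n → IsRule x y w n (ruleA y i)
  | B (i : ℕ) : i < n → IsRule x y w n (ruleB w i)
  | C : IsRule x y w n (ruleC S x y n)

variable {M S}

theorem mk_replicate (m : ℕ) : ListBlank.mk (List.replicate m (default : Γ)) = ListBlank.mk [] := by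
  symm
  apply Quotient.sound
  exact Or.inl ⟨m, by simp⟩

theorem mk_append_replicate (l : List Γ) (m : ℕ) :
    ListBlank.mk (l ++ List.replicate m (default : Γ)) = ListBlank.mk l := by
  symm
  apply Quotient.sound
  exact Or.inl ⟨m, rfl⟩

theorem step_move {c : TM0.Cfg Γ Λ} {q' : Λ} {d : Dir}
    (h : M c.q c.Tape.head = some (q', .move d)) :
    TM0.step M c = some ⟨q', c.Tape.move d⟩ := by
  obtain ⟨q, T⟩ := c
  simp only at h
  simp only [TM0.step, h, Option.map_some]

theorem step_write {c : TM0.Cfg Γ Λ} {q' : Λ} {a : Γ}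
    (h : M c.q c.Tape.head = some (q', .write a)) :
    TM0.step M c = some ⟨q', c.Tape.write a⟩ := by
  obtain ⟨q, T⟩ := c
  simp only at h
  simp only [TM0.step, h, Option.map_some]

theorem move_left_eq (T : Tape Γ) :
    T.move .left = ⟨T.left.head, T.left.tail, T.right.cons T.head⟩ := by
  cases T; rfl

theorem move_right_eq (T : Tape Γ) :
    T.move .right = ⟨T.right.head, T.left.cons T.head, T.right.tail⟩ := by
  cases T; rfl

theorem step_none {c : TM0.Cfg Γ Λ} (h : TM0.step M c = none) : M c.q c.Tape.head = none := by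
  obtain ⟨q, T⟩ := c
  simp only [TM0.step] at h
  simp only
  cases hM : M q T.head with
  | none => rfl
  | some p => rw [hM] at h; simp at h

theorem step_none' {c : TM0.Cfg Γ Λ} (h : M c.q c.Tape.head = none) : TM0.step M c = none := by
  obtain ⟨q, T⟩ := c
  simp only [TM0.step]
  simp only at h
  rw [h]
  rfl

/-- A halting run is simulated. -/
theorem halts_of_run {R : List SRule} (hR : ∀ r, FixedRule M S r → r ∈ R)
    (hS : TM0.Supports M (↑S : Set Λ)) {c b : TM0.Cfg Γ Λ} (hb : TM0.step M b = none)
    (h : StateTransition.Reaches (TM0.step M) c b) : c.q ∈ S →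
      ∃ t, ∀ U V : List Γ, ListBlank.mk U = c.Tape.left → ListBlank.mk V = c.Tape.right →
        t ≤ U.length → t ≤ V.length →
        Halts R (cq S c.q c.Tape.head) (U.map sy) (V.map sy) := by
  induction h using Relation.ReflTransGen.head_induction_on with
  | refl =>
    intro hq
    refine ⟨0, fun U V _ _ _ _ => ?_⟩
    refine .step (r := ⟨cq S b.q b.Tape.head, true, 0, true, 0, 0⟩)
      (hR _ (.halt _ _ hq (step_none hb))) rfl (Or.inl ⟨rfl, rfl⟩) (Or.inl ⟨rfl, rfl⟩) ?_
    exact .base _ _
  | @head c d h1 h2 ih =>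
    intro hq
    have hq' : d.q ∈ S := TM0.step_supports M hS h1 hq
    obtain ⟨t, ht⟩ := ih hq'
    refine ⟨t + 1, fun U V hU hV lU lV => ?_⟩
    rcases hM : M c.q c.Tape.head with _ | ⟨q', (dir | a)⟩
    · rw [step_none' hM] at h1
      simp at h1
    · have hstep := step_move hM
      rw [hstep] at h1
      simp only [Option.mem_def, Option.some.injEq] at h1
      cases dir
      · -- left
        obtain ⟨l, U', rfl⟩ : ∃ l U', U = l :: U' := by
          cases U with
          | nil => simp at lU
          | cons l U' => exact ⟨l, U', rfl⟩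
        have e1 : d.q = q' := by rw [← h1]
        have e2 : d.Tape.head = l := by
          rw [← h1, move_left_eq]
          show c.Tape.left.head = l
          rw [← hU]; rfl
        have := ht U' (c.Tape.head :: V) ?_ ?_ (by simp at lU; omega) (by simp at lV ⊢; omega)
        · rw [e1, e2] at this
          exact .step (r := ⟨cq S c.q c.Tape.head, false, sy l, true, sy c.Tape.head, cq S q' l⟩)
            (hR _ (.left _ _ _ _ hq hM)) rfl (Or.inr ⟨rfl, rfl⟩) (Or.inl ⟨rfl, rfl⟩) this
        · rw [← h1, move_left_eq]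
          show _ = c.Tape.left.tail
          rw [← hU]; rfl
        · rw [← h1, move_left_eq]
          show _ = c.Tape.right.cons c.Tape.head
          rw [← hV]; rfl
      · -- right
        obtain ⟨l, V', rfl⟩ : ∃ l V', V = l :: V' := by
          cases V with
          | nil => simp at lV
          | cons l V' => exact ⟨l, V', rfl⟩
        have e1 : d.q = q' := by rw [← h1]
        have e2 : d.Tape.head = l := by
          rw [← h1, move_right_eq]
          show c.Tape.right.head = l
          rw [← hV]; rfl
        have := ht (c.Tape.head :: U) V' ?_ ?_ (by simp at lU ⊢; omega) (by simp at lV; omega)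
        · rw [e1, e2] at this
          exact .step (r := ⟨cq S c.q c.Tape.head, true, sy c.Tape.head, false, sy l, cq S q' l⟩)
            (hR _ (.right _ _ _ _ hq hM)) rfl (Or.inl ⟨rfl, rfl⟩) (Or.inr ⟨rfl, rfl⟩) this
        · rw [← h1, move_right_eq]
          show _ = c.Tape.left.cons c.Tape.head
          rw [← hU]; rfl
        · rw [← h1, move_right_eq]
          show _ = c.Tape.right.tail
          rw [← hV]; rfl
    · have hstep := step_write hM
      rw [hstep] at h1
      simp only [Option.mem_def, Option.some.injEq] at h1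
      have e1 : d.q = q' := by rw [← h1]
      have e2 : d.Tape.head = a := by rw [← h1]; rfl
      have := ht U V ?_ ?_ (by omega) (by omega)
      · rw [e1, e2] at this
        refine .step (r := ⟨cq S c.q c.Tape.head, true, 0, true, 0, cw S q' a⟩)
          (hR _ (.write _ _ _ _ hq hM)) rfl (Or.inl ⟨rfl, rfl⟩) (Or.inl ⟨rfl, rfl⟩) ?_
        exact .step (r := ⟨cw S q' a, false, 0, false, 0, cq S q' a⟩)
          (hR _ (.write' _ _ _ _ hq hM)) rfl (Or.inr ⟨rfl, rfl⟩) (Or.inr ⟨rfl, rfl⟩) this
      · rw [← h1]; exact hU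
      · rw [← h1]; exact hV

/-- Reaching the configuration after the initialisation. -/
theorem reach_init {x y w : Γ} {n : ℕ} {R : List SRule}
    (hR : ∀ r, IsRule M S x y w n r → r ∈ R) (m : ℕ) :
    Reach R (ci 0) (cq S default x) ((List.replicate (m + 2 * n + 1) (default : Γ)).map sy)
      ((y :: (List.replicate n [w, y]).flatten ++ List.replicate m default).map sy) := by
  have h0 : Reach R (ci 0) (ci 0) ((List.replicate m (default : Γ)).map sy)
      ((List.replicate m (default : Γ)).map sy) := by
    induction m with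
    | zero => exact .start
    | succ m ih =>
      exact .step ih (hR _ .I) rfl (Or.inl ⟨rfl, rfl⟩) (Or.inl ⟨rfl, rfl⟩)
  have h1 : ∀ k, k ≤ n → Reach R (ci 0) (ci (2 * k))
      ((List.replicate (m + 2 * k) (default : Γ)).map sy)
      (((List.replicate k [w, y]).flatten ++ List.replicate m default).map sy) := by
    intro k
    induction k with
    | zero => intro _; exact h0
    | succ k ih =>
      intro hk
      have i1 := ih (by omega)
      have i2 : Reach R (ci 0) (ci (2 * k + 1)) _ _ :=
        .step i1 (hR _ (.A k (by omega))) rfl (Or.inl ⟨rfl, rfl⟩) (Or.inl ⟨rfl, rfl⟩)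
      exact .step i2 (hR _ (.B k (by omega))) rfl (Or.inl ⟨rfl, rfl⟩) (Or.inl ⟨rfl, rfl⟩)
  exact .step (h1 n le_rfl) (hR _ .C) rfl (Or.inl ⟨rfl, rfl⟩) (Or.inl ⟨rfl, rfl⟩)

/-- If the machine halts, then the halting state is reachable. -/
theorem halts_of_dom {x y w : Γ} {n : ℕ} {R : List SRule}
    (hR : ∀ r, IsRule M S x y w n r → r ∈ R) (hS : TM0.Supports M (↑S : Set Λ))
    (h : (StateTransition.eval (TM0.step M)
        (TM0.init (x :: y :: (List.replicate n [w, y]).flatten))).Dom) :
    Halts R (ci 0) [] [] := by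
  obtain ⟨b, hb⟩ := Part.dom_iff_mem.1 h
  obtain ⟨h1, h2⟩ := StateTransition.mem_eval.1 hb
  obtain ⟨t, ht⟩ := halts_of_run (R := R) (fun r hr => hR _ (.fixed r hr)) hS h2 h1 hS.1
  refine (reach_init hR t).halts ?_
  refine ht _ _ ?_ ?_ ?_ ?_
  · rw [mk_replicate]; rfl
  · rw [mk_append_replicate]; rfl
  · simp; omega
  · simp; omega

/-- The invariant of the simulation. -/
inductive Inv (M : TM0.Machine Γ Λ) (S : Finset Λ) (x y w : Γ) (n : ℕ) :
    ℕ → List ℕ → List ℕ → Prop
  | even (k m : ℕ) : k ≤ n → Inv M S x y w n (ci (2 * k))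
      ((List.replicate (m + 2 * k) (default : Γ)).map sy)
      (((List.replicate k [w, y]).flatten ++ List.replicate m default).map sy)
  | odd (k m : ℕ) : k < n → Inv M S x y w n (ci (2 * k + 1))
      ((List.replicate (m + 2 * k + 1) (default : Γ)).map sy)
      ((y :: (List.replicate k [w, y]).flatten ++ List.replicate m default).map sy)
  | main (c : TM0.Cfg Γ Λ) (U V : List Γ) :
      StateTransition.Reaches (TM0.step M)
        (TM0.init (x :: y :: (List.replicate n [w, y]).flatten)) c → c.q ∈ S →
      ListBlank.mk U = c.Tape.left → ListBlank.mk V = c.Tape.right →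
      Inv M S x y w n (cq S c.q c.Tape.head) (U.map sy) (V.map sy)
  | write (c : TM0.Cfg Γ Λ) (U V : List Γ) :
      StateTransition.Reaches (TM0.step M)
        (TM0.init (x :: y :: (List.replicate n [w, y]).flatten)) c → c.q ∈ S →
      ListBlank.mk U = c.Tape.left → ListBlank.mk V = c.Tape.right →
      Inv M S x y w n (cw S c.q c.Tape.head) (0 :: U.map sy) (0 :: V.map sy)
  | halt (u v : List ℕ) : (StateTransition.eval (TM0.step M)
        (TM0.init (x :: y :: (List.replicate n [w, y]).flatten))).Dom → Inv M S x y w n 0 u v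

theorem inv_cq {x y w : Γ} {n : ℕ} {q : Λ} {a : Γ} {u v : List ℕ}
    (h : Inv M S x y w n (cq S q a) u v) : ∃ (c : TM0.Cfg Γ Λ) (U V : List Γ),
      StateTransition.Reaches (TM0.step M)
        (TM0.init (x :: y :: (List.replicate n [w, y]).flatten)) c ∧ c.q ∈ S ∧
      ListBlank.mk U = c.Tape.left ∧ ListBlank.mk V = c.Tape.right ∧ c.q = q ∧ c.Tape.head = a ∧
      u = U.map sy ∧ v = V.map sy := by
  generalize hs : cq S q a = s at h
  cases h with
  | even k m hk => unfold cq ci at hs; omega
  | odd k m hk => unfold cq ci at hs; omega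
  | main c U V h1 h2 h3 h4 =>
    unfold cq at hs
    have : Nat.pair (sn S q) (sy a) = Nat.pair (sn S c.q) (sy c.Tape.head) := by omega
    rw [Nat.pair_eq_pair] at this
    exact ⟨c, U, V, h1, h2, h3, h4, sn_inj h2 this.1.symm, (sy_inj this.2).symm, rfl, rfl⟩
  | write c U V h1 h2 h3 h4 => unfold cq cw at hs; omega
  | halt => unfold cq at hs; omega

theorem inv_cw {x y w : Γ} {n : ℕ} {q : Λ} {a : Γ} {u v : List ℕ}
    (h : Inv M S x y w n (cw S q a) u v) : ∃ (c : TM0.Cfg Γ Λ) (U V : List Γ),
      StateTransition.Reaches (TM0.step M)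
        (TM0.init (x :: y :: (List.replicate n [w, y]).flatten)) c ∧ c.q ∈ S ∧
      ListBlank.mk U = c.Tape.left ∧ ListBlank.mk V = c.Tape.right ∧ c.q = q ∧ c.Tape.head = a ∧
      u = 0 :: U.map sy ∧ v = 0 :: V.map sy := by
  generalize hs : cw S q a = s at h
  cases h with
  | even k m hk => unfold cw ci at hs; omega
  | odd k m hk => unfold cw ci at hs; omega
  | main c U V h1 h2 h3 h4 => unfold cq cw at hs; omega
  | write c U V h1 h2 h3 h4 =>
    unfold cw at hs
    have : Nat.pair (sn S q) (sy a) = Nat.pair (sn S c.q) (sy c.Tape.head) := by omega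
    rw [Nat.pair_eq_pair] at this
    exact ⟨c, U, V, h1, h2, h3, h4, sn_inj h2 this.1.symm, (sy_inj this.2).symm, rfl, rfl⟩
  | halt => unfold cw at hs; omega

theorem inv_even {x y w : Γ} {n i : ℕ} {u v : List ℕ}
    (h : Inv M S x y w n (ci (2 * i)) u v) : i ≤ n ∧ ∃ m,
      u = (List.replicate (m + 2 * i) (default : Γ)).map sy ∧
      v = ((List.replicate i [w, y]).flatten ++ List.replicate m default).map sy := by
  generalize hs : ci (2 * i) = s at h
  cases h with
  | even k m hk =>
    have : k = i := by unfold ci at hs; omega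
    subst this
    exact ⟨hk, m, rfl, rfl⟩
  | odd k m hk => unfold ci at hs; omega
  | main c U V h1 h2 h3 h4 => unfold cq ci at hs; omega
  | write c U V h1 h2 h3 h4 => unfold cw ci at hs; omega
  | halt => unfold ci at hs; omega

theorem inv_odd {x y w : Γ} {n i : ℕ} {u v : List ℕ}
    (h : Inv M S x y w n (ci (2 * i + 1)) u v) : i < n ∧ ∃ m,
      u = (List.replicate (m + 2 * i + 1) (default : Γ)).map sy ∧
      v = (y :: (List.replicate i [w, y]).flatten ++ List.replicate m default).map sy := by
  generalize hs : ci (2 * i + 1) = s at h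
  cases h with
  | even k m hk => unfold ci at hs; omega
  | odd k m hk =>
    have : k = i := by unfold ci at hs; omega
    subst this
    exact ⟨hk, m, rfl, rfl⟩
  | main c U V h1 h2 h3 h4 => unfold cq ci at hs; omega
  | write c U V h1 h2 h3 h4 => unfold cw ci at hs; omega
  | halt => unfold ci at hs; omega

theorem Mv.push_eq {g : ℕ} {u u' : List ℕ} (h : Mv true g u u') : u' = g :: u := by
  rcases h with ⟨_, h⟩ | ⟨h, _⟩
  · exact h
  · simp at h

theorem Mv.pop_eq {g : ℕ} {u u' : List ℕ} (h : Mv false g u u') : u = g :: u' := by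
  rcases h with ⟨h, _⟩ | ⟨_, h⟩
  · simp at h
  · exact h

/-- The invariant is preserved by every rule. -/
theorem inv_step {x y w : Γ} {n : ℕ} (hS : TM0.Supports M (↑S : Set Λ)) {r : SRule}
    (hr : IsRule M S x y w n r) {u v u' v' : List ℕ} (h : Inv M S x y w n r.q u v)
    (m1 : Mv r.p1 r.g u u') (m2 : Mv r.p2 r.d v v') : Inv M S x y w n r.q' u' v' := by
  cases hr with
  | fixed r hr =>
    cases hr with
    | halt q a hq hM =>
      obtain ⟨c, U, V, h1, h2, h3, h4, rfl, rfl, rfl, rfl⟩ := inv_cq h
      refine .halt _ _ ?_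
      exact Part.dom_iff_mem.2 ⟨c, StateTransition.mem_eval.2 ⟨h1, step_none' hM⟩⟩
    | right q a q' r hq hM =>
      obtain ⟨c, U, V, h1, h2, h3, h4, rfl, rfl, rfl, rfl⟩ := inv_cq h
      have e1 := m1.push_eq
      have e2 := m2.pop_eq
      simp only at e1 e2
      obtain ⟨r', V', rfl, h5, rfl⟩ := List.map_eq_cons_iff.1 e2
      have h5 := sy_inj h5
      subst h5
      subst e1
      have hst := step_move hM
      have hc' : (⟨q', c.Tape.move .right⟩ : TM0.Cfg Γ Λ) ∈ TM0.step M c := hst
      have hT : c.Tape.move .right = ⟨r', c.Tape.left.cons c.Tape.head, c.Tape.right.tail⟩ := by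
        rw [move_right_eq, ← h4]
        rfl
      have key := Inv.main (M := M) (S := S) (x := x) (y := y) (w := w) (n := n)
        ⟨q', c.Tape.move .right⟩ (c.Tape.head :: U) V' (h1.tail hc')
        (TM0.step_supports M hS hc' h2) (by rw [hT]; simp only; rw [← h3]; rfl)
        (by rw [hT]; simp only; rw [← h4]; rfl)
      rw [hT] at key
      exact key
    | left q a q' r hq hM =>
      obtain ⟨c, U, V, h1, h2, h3, h4, rfl, rfl, rfl, rfl⟩ := inv_cq h
      have e1 := m1.pop_eq
      have e2 := m2.push_eq
      simp only at e1 e2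
      obtain ⟨r', U', rfl, h5, rfl⟩ := List.map_eq_cons_iff.1 e1
      have h5 := sy_inj h5
      subst h5
      subst e2
      have hst := step_move hM
      have hc' : (⟨q', c.Tape.move .left⟩ : TM0.Cfg Γ Λ) ∈ TM0.step M c := hst
      have hT : c.Tape.move .left = ⟨r', c.Tape.left.tail, c.Tape.right.cons c.Tape.head⟩ := by
        rw [move_left_eq, ← h3]
        rfl
      have key := Inv.main (M := M) (S := S) (x := x) (y := y) (w := w) (n := n)
        ⟨q', c.Tape.move .left⟩ U' (c.Tape.head :: V) (h1.tail hc')
        (TM0.step_supports M hS hc' h2) (by rw [hT]; simp only; rw [← h3]; rfl)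
        (by rw [hT]; simp only; rw [← h4]; rfl)
      rw [hT] at key
      exact key
    | write q a q' b hq hM =>
      obtain ⟨c, U, V, h1, h2, h3, h4, rfl, rfl, rfl, rfl⟩ := inv_cq h
      have e1 := m1.push_eq
      have e2 := m2.push_eq
      simp only at e1 e2
      subst e1
      subst e2
      have hst := step_write hM
      have hc' : (⟨q', c.Tape.write b⟩ : TM0.Cfg Γ Λ) ∈ TM0.step M c := hst
      exact Inv.write (M := M) (S := S) (x := x) (y := y) (w := w) (n := n)
        ⟨q', c.Tape.write b⟩ U V (h1.tail hc') (TM0.step_supports M hS hc' h2) h3 h4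
    | write' q a q' b hq hM =>
      obtain ⟨c, U, V, h1, h2, h3, h4, rfl, rfl, rfl, rfl⟩ := inv_cw h
      have e1 := m1.pop_eq
      have e2 := m2.pop_eq
      simp only [List.cons.injEq, true_and] at e1 e2
      subst e1
      subst e2
      exact Inv.main c U V h1 h2 h3 h4
  | I =>
    obtain ⟨_, m, rfl, rfl⟩ := inv_even (i := 0) h
    have e1 := m1.push_eq
    have e2 := m2.push_eq
    subst e1
    subst e2
    exact Inv.even 0 (m + 1) (Nat.zero_le _)
  | A i hi =>
    obtain ⟨_, m, rfl, rfl⟩ := inv_even (i := i) h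
    have e1 := m1.push_eq
    have e2 := m2.push_eq
    subst e1
    subst e2
    exact Inv.odd i m hi
  | B i hi =>
    obtain ⟨_, m, rfl, rfl⟩ := inv_odd (i := i) h
    have e1 := m1.push_eq
    have e2 := m2.push_eq
    subst e1
    subst e2
    exact Inv.even (i + 1) m hi
  | C =>
    obtain ⟨_, m, rfl, rfl⟩ := inv_even (i := n) h
    have e1 := m1.push_eq
    have e2 := m2.push_eq
    subst e1
    subst e2
    exact Inv.main (M := M) (S := S) (x := x) (y := y) (w := w) (n := n)
      (TM0.init (x :: y :: (List.replicate n [w, y]).flatten))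
      (List.replicate (m + 2 * n + 1) default)
      (y :: (List.replicate n [w, y]).flatten ++ List.replicate m default) .refl hS.1
      (by rw [mk_replicate]; rfl) (by rw [mk_append_replicate]; rfl)

/-- If the halting state is reachable, then the machine halts. -/
theorem dom_of_reach {x y w : Γ} {n : ℕ} {R : List SRule}
    (hR : ∀ r ∈ R, IsRule M S x y w n r) (hS : TM0.Supports M (↑S : Set Λ)) {u v : List ℕ}
    (h : Reach R (ci 0) 0 u v) :
    (StateTransition.eval (TM0.step M)
        (TM0.init (x :: y :: (List.replicate n [w, y]).flatten))).Dom := by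
  have key : ∀ {q : ℕ} {u v : List ℕ}, Reach R (ci 0) q u v → Inv M S x y w n q u v := by
    intro q u v h
    induction h with
    | start => exact Inv.even 0 0 (Nat.zero_le _)
    | step _ h2 h3 h4 h5 ih =>
      subst h3
      exact inv_step hS (hR _ h2) ih h4 h5
  have h1 := key h
  generalize hs : 0 = s at h1
  cases h1 with
  | even k m hk => unfold ci at hs; omega
  | odd k m hk => unfold ci at hs; omega
  | main c U V h1 h2 h3 h4 => unfold cq at hs; omega
  | write c U V h1 h2 h3 h4 => unfold cw at hs; omega
  | halt _ _ h => exact h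

end TwoStack

end Pool.Agent.Work.MP_e8d052_lc
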