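import Pool.Agent.Work.MP_e8d052_lc.System

/-!
# The reduction formula, and its computability
-/

set_option linter.unusedVariables false
set_option linter.unusedSectionVars false

namespace Pool.Agent.Work.MP_e8d052_lc

open Turing

/-- Conjunction of a list of formulae. -/
def bigAnd : List Fml → Fml
  | [] => pEsc false 0
  | a :: l => .and a (bigAnd l)

theorem Conj.trans {a b c : Fml} (h1 : Conj a b) (h2 : Conj b c) : Conj a c := by
  induction h2 with
  | self => exact h1
  | left _ ih => exact .left ih
  | right _ ih => exact .right ih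

theorem conj_bigAnd {a : Fml} {l : List Fml} (h : a ∈ l) : Conj a (bigAnd l) := by
  induction l with
  | nil => simp at h
  | cons b l ih =>
    rcases List.mem_cons.1 h with rfl | h
    · exact .left .self
    · exact .right (ih h)

theorem piece_bigAnd {R : List SRule} {q0 : ℕ} {l : List Fml} (h : ∀ a ∈ l, Piece R q0 a) :
    Piece R q0 (bigAnd l) := by
  induction l with
  | nil => exact .esc _ _
  | cons b l ih =>
    exact .and _ _ (h b (by simp)) (ih fun a ha => h a (by simp [ha]))

/-- All the conjuncts attached to a rule. -/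
def ruleFmls (r : SRule) : List Fml :=
  (List.range 4).flatMap fun c => (List.range 4).flatMap fun d => [pPos r.q' c d, pRule r c d]

/-- All the conjuncts not attached to a rule. -/
def baseFmls (q0 K : ℕ) : List Fml :=
  [pStart q0] ++
  ((List.range 4).flatMap fun c => (List.range 4).map fun d => pHalt c d) ++
  ([false, true].flatMap fun s => (List.range K).map fun d => pGen0 s d) ++
  ([false, true].flatMap fun s => (List.range 4).flatMap fun c => (List.range K).flatMap fun g =>
    (List.range K).map fun d => pGen s c g d) ++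
  ([false, true].flatMap fun s => (List.range 4).map fun c => pEsc s c)

theorem full_of {R : List SRule} {q0 K : ℕ} {Θ : Fml}
    (h1 : ∀ r ∈ R, Conj (bigAnd (ruleFmls r)) Θ) (h2 : Conj (bigAnd (baseFmls q0 K)) Θ) :
    Full R q0 K Θ := by
  have hr : ∀ r ∈ R, ∀ c < 4, ∀ d < 4, Conj (pPos r.q' c d) Θ ∧ Conj (pRule r c d) Θ := by
    intro r hr c hc d hd
    constructor <;>
    · refine (conj_bigAnd ?_).trans (h1 r hr)
      unfold ruleFmls
      simp only [List.mem_flatMap, List.mem_range]
      exact ⟨c, hc, d, hd, by simp⟩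
  have hb : ∀ a ∈ baseFmls q0 K, Conj a Θ := fun a ha => (conj_bigAnd ha).trans h2
  refine ⟨?_, ?_, ?_, ?_, ?_, ?_, ?_⟩
  · exact hb _ (by simp [baseFmls])
  · exact fun r h _ c hc d hd => (hr r h c hc d hd).1
  · intro c hc d hd
    refine hb _ ?_
    unfold baseFmls
    simp only [List.mem_append, List.mem_flatMap, List.mem_map, List.mem_range]
    exact Or.inl (Or.inl (Or.inl (Or.inr ⟨c, hc, d, hd, rfl⟩)))
  · exact fun r h c hc d hd => (hr r h c hc d hd).2
  · intro s d hd
    refine hb _ ?_
    unfold baseFmls
    simp only [List.mem_append, List.mem_flatMap, List.mem_map, List.mem_range]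
    exact Or.inl (Or.inl (Or.inr ⟨s, by cases s <;> simp, d, hd, rfl⟩))
  · intro s c hc g hg d hd
    refine hb _ ?_
    unfold baseFmls
    simp only [List.mem_append, List.mem_flatMap, List.mem_map, List.mem_range]
    exact Or.inl (Or.inr ⟨s, by cases s <;> simp, c, hc, g, hg, d, hd, rfl⟩)
  · intro s c hc
    refine hb _ ?_
    unfold baseFmls
    simp only [List.mem_append, List.mem_flatMap, List.mem_map, List.mem_range]
    exact Or.inr ⟨s, by cases s <;> simp, c, hc, rfl⟩

theorem piece_base {R : List SRule} {q0 K : ℕ} : Piece R q0 (bigAnd (baseFmls q0 K)) := by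
  refine piece_bigAnd ?_
  intro a ha
  unfold baseFmls at ha
  simp only [List.mem_append, List.mem_flatMap, List.mem_map, List.mem_range,
    List.mem_singleton] at ha
  rcases ha with (((rfl | ⟨c, hc, d, hd, rfl⟩) | ⟨s, _, d, hd, rfl⟩) |
    ⟨s, _, c, hc, g, hg, d, hd, rfl⟩) | ⟨s, _, c, hc, rfl⟩
  · exact .start
  · exact .halt _ _
  · exact .gen0 _ _
  · exact .gen _ _ _ _
  · exact .esc _ _

theorem piece_rule {R : List SRule} {q0 : ℕ} {r : SRule} (hr : r ∈ R) :
    Piece R q0 (bigAnd (ruleFmls r)) := by
  refine piece_bigAnd ?_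
  intro a ha
  unfold ruleFmls at ha
  simp only [List.mem_flatMap, List.mem_range, List.mem_cons, List.not_mem_nil, or_false] at ha
  obtain ⟨c, _, d, _, rfl | rfl⟩ := ha
  · exact .pos _ _ _
  · exact .rule _ _ _ hr

section

variable {Γ Λ : Type} [Inhabited Γ] [Fintype Γ] [Inhabited Λ]
variable (M : TM0.Machine Γ Λ) (S : Finset Λ) (x y w : Γ)

/-- The rules that do not depend on the input. -/
noncomputable def constRules : List SRule := ruleI Γ :: fixedList M S

/-- The part of the reduction formula that does not depend on the input. -/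
noncomputable def constFml : Fml :=
  bigAnd (bigAnd (baseFmls (ci 0) (Fintype.card Γ)) ::
    (constRules M S).map fun r => bigAnd (ruleFmls r))

/-- The blocks of the reduction formula. -/
noncomputable def midFml : ℕ → Fml
  | 0 => constFml M S
  | i + 1 => .and (.and (bigAnd (ruleFmls (ruleA y i))) (bigAnd (ruleFmls (ruleB w i)))) (midFml i)

/-- The antecedent of the reduction formula. -/
noncomputable def theta (n : ℕ) : Fml := .and (bigAnd (ruleFmls (ruleC S x y n))) (midFml M S y w n)

/-- All the rules. -/
noncomputable def allRules (n : ℕ) : List SRule :=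
  ruleC S x y n :: ((List.range n).flatMap fun i => [ruleA y i, ruleB w i]) ++ constRules M S

theorem mem_allRules {n : ℕ} {r : SRule} : r ∈ allRules M S x y w n ↔ IsRule M S x y w n r := by
  unfold allRules constRules
  simp only [List.cons_append, List.mem_cons, List.mem_append, List.mem_flatMap, List.mem_range,
    List.not_mem_nil, or_false, mem_fixedList]
  constructor
  · rintro (rfl | ⟨i, hi, rfl | rfl⟩ | rfl | h)
    · exact .C
    · exact .A i hi
    · exact .B i hi
    · exact .I
    · exact .fixed r h
  · intro h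
    cases h with
    | fixed r h => exact Or.inr (Or.inr (Or.inr h))
    | I => exact Or.inr (Or.inr (Or.inl rfl))
    | A i hi => exact Or.inr (Or.inl ⟨i, hi, Or.inl rfl⟩)
    | B i hi => exact Or.inr (Or.inl ⟨i, hi, Or.inr rfl⟩)
    | C => exact Or.inl rfl

theorem conj_const {n : ℕ} {a : Fml} (h : Conj a (constFml M S)) : Conj a (midFml M S y w n) := by
  induction n with
  | zero => exact h
  | succ n ih => exact .right ih

theorem conj_block {n i : ℕ} (hi : i < n) : Conj (bigAnd (ruleFmls (ruleA y i)))
    (midFml M S y w n) ∧ Conj (bigAnd (ruleFmls (ruleB w i))) (midFml M S y w n) := by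
  induction n with
  | zero => omega
  | succ n ih =>
    rcases Nat.lt_succ_iff_lt_or_eq.1 hi with h | rfl
    · exact ⟨.right (ih h).1, .right (ih h).2⟩
    · exact ⟨.left (.left .self), .left (.right .self)⟩

theorem full_theta (n : ℕ) :
    Full (allRules M S x y w n) (ci 0) (Fintype.card Γ) (theta M S x y w n) := by
  have hc : ∀ r ∈ constRules M S, Conj (bigAnd (ruleFmls r)) (theta M S x y w n) := by
    intro r hr
    refine .right (conj_const M S y w ?_)
    unfold constFml
    exact conj_bigAnd (List.mem_cons_of_mem _ (List.mem_map.2 ⟨r, hr, rfl⟩))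
  refine full_of ?_ ?_
  · intro r hr
    rw [mem_allRules] at hr
    cases hr with
    | fixed r h => exact hc r (List.mem_cons_of_mem _ ((mem_fixedList M S).2 h))
    | I => exact hc _ (List.mem_cons_self ..)
    | A i hi => exact .right (conj_block M S y w hi).1
    | B i hi => exact .right (conj_block M S y w hi).2
    | C => exact .left .self
  · refine .right (conj_const M S y w ?_)
    unfold constFml
    exact conj_bigAnd (List.mem_cons_self ..)

theorem piece_theta (n : ℕ) : Piece (allRules M S x y w n) (ci 0) (theta M S x y w n) := by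
  refine .and _ _ (piece_rule ((mem_allRules M S x y w).2 .C)) ?_
  have h : ∀ k, k ≤ n → Piece (allRules M S x y w n) (ci 0) (midFml M S y w k) := by
    intro k
    induction k with
    | zero =>
      intro _
      refine piece_bigAnd ?_
      intro a ha
      rcases List.mem_cons.1 ha with rfl | ha
      · exact piece_base
      · obtain ⟨r, hr, rfl⟩ := List.mem_map.1 ha
        refine piece_rule ((mem_allRules M S x y w).2 ?_)
        rcases List.mem_cons.1 hr with rfl | hr
        · exact .I
        · exact .fixed r ((mem_fixedList M S).1 hr)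
    | succ k ih =>
      intro hk
      exact .and _ _ (.and _ _ (piece_rule ((mem_allRules M S x y w).2 (.A k hk)))
        (piece_rule ((mem_allRules M S x y w).2 (.B k hk)))) (ih (by omega))
  exact h n le_rfl

theorem symbols_theta (n : ℕ) : ∀ r ∈ allRules M S x y w n,
    r.g < Fintype.card Γ ∧ r.d < Fintype.card Γ := by
  have h0 : 0 < Fintype.card Γ := Fintype.card_pos
  intro r hr
  rw [mem_allRules] at hr
  cases hr with
  | fixed r h =>
    cases h with
    | halt => exact ⟨h0, h0⟩
    | right => exact ⟨sy_lt _, sy_lt _⟩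
    | left => exact ⟨sy_lt _, sy_lt _⟩
    | write => exact ⟨h0, h0⟩
    | write' => exact ⟨h0, h0⟩
  | I => exact ⟨sy_lt _, sy_lt _⟩
  | A i hi => exact ⟨sy_lt _, sy_lt _⟩
  | B i hi => exact ⟨sy_lt _, sy_lt _⟩
  | C => exact ⟨sy_lt _, sy_lt _⟩

end

/-! ### Computability -/

/-- A family of formulae whose code is primitive recursive in the parameter. -/
def PF (F : ℕ → Fml) : Prop := Primrec fun n => (F n).code

theorem PF.const (a : Fml) : PF fun _ => a := Primrec.const _

theorem PF.var {f : ℕ → ℕ} (hf : Primrec f) : PF fun n => .var (f n) :=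
  Primrec₂.natPair.comp (Primrec.const 0) hf

theorem PF.neg {F : ℕ → Fml} (hF : PF F) : PF fun n => .neg (F n) :=
  Primrec₂.natPair.comp (Primrec.const 1) hF

theorem PF.and {F G : ℕ → Fml} (hF : PF F) (hG : PF G) : PF fun n => .and (F n) (G n) :=
  Primrec₂.natPair.comp (Primrec.const 2) (Primrec₂.natPair.comp hF hG)

theorem PF.or {F G : ℕ → Fml} (hF : PF F) (hG : PF G) : PF fun n => .or (F n) (G n) :=
  Primrec₂.natPair.comp (Primrec.const 3) (Primrec₂.natPair.comp hF hG)

theorem PF.imp {F G : ℕ → Fml} (hF : PF F) (hG : PF G) : PF fun n => .imp (F n) (G n) :=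
  Primrec₂.natPair.comp (Primrec.const 4) (Primrec₂.natPair.comp hF hG)

theorem PF.T {q : ℕ → ℕ} (hq : Primrec q) (c d : ℕ) : PF fun n => v (.T (q n) c d) :=
  PF.var (Primrec₂.natPair.comp (Primrec.const 4)
    (Primrec₂.natPair.comp hq (Primrec.const (Nat.pair c d))))

theorem PF.N {q : ℕ → ℕ} (hq : Primrec q) (c d : ℕ) : PF fun n => v (.N (q n) c d) :=
  PF.var (Primrec₂.natPair.comp (Primrec.const 5)
    (Primrec₂.natPair.comp hq (Primrec.const (Nat.pair c d))))

theorem PF.bigAnd {Fs : List (ℕ → Fml)} (h : ∀ F ∈ Fs, PF F) :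
    PF fun n => bigAnd (Fs.map fun F => F n) := by
  induction Fs with
  | nil => exact PF.const _
  | cons F Fs ih =>
    exact PF.and (h F (by simp)) (ih fun G hG => h G (by simp [hG]))

theorem PF.rule {q q' : ℕ → ℕ} (hq : Primrec q) (hq' : Primrec q') (p1 : Bool) (g : ℕ) (p2 : Bool)
    (d : ℕ) : PF fun n => Pool.Agent.Work.MP_e8d052_lc.bigAnd
      (ruleFmls ⟨q n, p1, g, p2, d, q' n⟩) := by
  have h := PF.bigAnd (Fs := (List.range 4).flatMap fun c => (List.range 4).flatMap fun e =>
    [fun n => pPos (q' n) c e, fun n => pRule ⟨q n, p1, g, p2, d, q' n⟩ c e]) ?_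
  · have he : ∀ n, ((List.range 4).flatMap fun c => (List.range 4).flatMap fun e =>
        [fun n => pPos (q' n) c e, fun n => pRule ⟨q n, p1, g, p2, d, q' n⟩ c e]).map
          (fun F => F n) = ruleFmls ⟨q n, p1, g, p2, d, q' n⟩ := by
      intro n
      simp only [ruleFmls, List.map_flatMap, List.map_cons, List.map_nil]
    simpa only [he] using h
  · intro F hF
    simp only [List.mem_flatMap, List.mem_range, List.mem_cons, List.not_mem_nil, or_false] at hF
    obtain ⟨c, _, e, _, rfl | rfl⟩ := hF
    · exact PF.imp (PF.const (v (.A false c))) (PF.imp (PF.const (v (.A true e)))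
        (PF.or (PF.T hq' c e) (PF.N hq' c e)))
    · exact PF.imp (PF.const (v (.G false c g))) (PF.imp (PF.const (v (.G true e d)))
        (PF.imp (PF.T hq (lo p1 c) (lo p2 e)) (PF.neg (PF.N hq' (hi p1 c) (hi p2 e)))))

theorem PF.recursion {F G : ℕ → Fml} (hF : PF F) (hs : ∀ i, G (i + 1) = .and (F i) (G i)) :
    PF G := by
  have hF' : Primrec fun n => (F n).code := hF
  have h : Primrec (Nat.rec (G 0).code (fun i acc => Nat.pair 2 (Nat.pair (F i).code acc)) :
      ℕ → ℕ) := by
    refine Primrec.nat_rec₁ _ ?_
    have h1 : Primrec fun p : ℕ × ℕ => (F p.1).code := hF'.comp Primrec.fst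
    exact Primrec₂.natPair.comp (Primrec.const 2) (Primrec₂.natPair.comp h1 Primrec.snd)
  refine h.of_eq ?_
  intro n
  induction n with
  | zero => rfl
  | succ n ih =>
    rw [hs]
    simp only [Fml.code]
    rw [← ih]

theorem primrec_ci {f : ℕ → ℕ} (hf : Primrec f) : Primrec fun n => ci (f n) :=
  Primrec.nat_add.comp (Primrec.nat_mul.comp (Primrec.const 3) hf) (Primrec.const 1)

section

variable {Γ Λ : Type} [Inhabited Γ] [Fintype Γ] [Inhabited Λ]
variable (M : TM0.Machine Γ Λ) (S : Finset Λ) (x y w : Γ)

theorem PF_A : PF fun n => bigAnd (ruleFmls (ruleA y n)) := by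
  have h2 : Primrec fun n : ℕ => 2 * n := Primrec.nat_mul.comp (Primrec.const 2) Primrec.id
  exact PF.rule (primrec_ci h2) (primrec_ci (Primrec.nat_add.comp h2 (Primrec.const 1))) _ _ _ _

theorem PF_B : PF fun n => bigAnd (ruleFmls (ruleB w n)) := by
  have h2 : Primrec fun n : ℕ => 2 * n := Primrec.nat_mul.comp (Primrec.const 2) Primrec.id
  exact PF.rule (primrec_ci (Primrec.nat_add.comp h2 (Primrec.const 1)))
    (primrec_ci (h2.comp Primrec.succ)) _ _ _ _

theorem PF_C : PF fun n => bigAnd (ruleFmls (ruleC S x y n)) := by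
  have h2 : Primrec fun n : ℕ => 2 * n := Primrec.nat_mul.comp (Primrec.const 2) Primrec.id
  exact PF.rule (primrec_ci h2) (Primrec.const _) _ _ _ _

theorem PF_mid : PF fun n => midFml M S y w n :=
  PF.recursion ((PF_A y).and (PF_B w)) (fun _ => rfl)

theorem PF_theta : PF fun n => .imp (theta M S x y w n) chi :=
  PF.imp (PF.and (PF_C S x y) (PF_mid M S y w)) (PF.const _)

end

end Pool.Agent.Work.MP_e8d052_lc
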